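import Pool.Agent.X100.WS.Start

/-! Almost all shifts. -/

namespace Pool.Agent.X100.WS

open Finset MeasureTheory Filter

variable {ι : Type*} [Fintype ι] [DecidableEq ι]

lemma Cl_chain (n : ℕ) {J0 : Finset ι} {E κ : ℝ}
    (h0 : ∀ e < 1 - κ, Cl n E κ J0 e) (T : Finset ι) (hT : Disjoint J0 T) :
    ∀ e < 2 ^ T.card * (1 - κ), Cl n E κ (J0 ∪ T) e := by
  induction T using Finset.induction_on with
  | empty =>
    intro e he
    rw [Finset.union_empty]
    exact h0 e (by simpa using he)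
  | insert i T hi ih =>
    intro e he
    rw [Finset.disjoint_insert_right] at hT
    rw [Finset.card_insert_of_notMem hi, pow_succ] at he
    have hmem : i ∉ J0 ∪ T := by
      rw [Finset.mem_union]
      exact fun h => h.elim hT.1 hi
    rw [Finset.union_insert]
    have h1 := ih hT.2 ((e / 2 + 2 ^ T.card * (1 - κ)) / 2) (by linarith)
    exact Cl_step n hmem (by linarith) h1

/-- Representation of all large real numbers by shifted powers. -/
def Rep (k : ℕ) (θ : ι → ℝ) (κ : ℝ) : Prop :=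
  ∀ M : ℕ, ∀ᶠ τ : ℝ in atTop, ∃ x : ι → ℕ, (∀ i, M ≤ x i) ∧
    |∑ i, ((x i : ℝ) + θ i) ^ k - τ| ≤ τ ^ (-κ)

omit [DecidableEq ι] in
lemma Rep.mono {k : ℕ} {θ : ι → ℝ} {κ κ' : ℝ} (h : Rep k θ κ) (hle : κ' ≤ κ) : Rep k θ κ' := by
  intro M
  filter_upwards [h M, eventually_ge_atTop 1] with τ hτ h1
  obtain ⟨x, hx, hx2⟩ := hτ
  exact ⟨x, hx, hx2.trans (Real.rpow_le_rpow_of_exponent_le h1 (by linarith))⟩

lemma cover (n : ℕ) {E κ : ℝ} {j : ℕ} {θ : ι → ℝ}
    (h : volume (BadS n E κ Finset.univ j θ) < ENNReal.ofReal ((PP j : ℝ) ^ (-κ))) {τ : ℝ}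
    (h1 : 2 ^ (n + 2) * Fintype.card ι * (PP j : ℝ) ^ (n + 2) ≤ τ)
    (h2 : τ + (PP j : ℝ) ^ (-κ) ≤ E * (PP j : ℝ) ^ (n + 2)) :
    ∃ x : ι → ℕ, (∀ i, PP j ≤ x i) ∧
      |∑ i, ((x i : ℝ) + θ i) ^ (n + 2) - τ| ≤ 2 * (PP j : ℝ) ^ (-κ) := by
  by_contra hcon
  push Not at hcon
  have hsub : Set.Icc τ (τ + (PP j : ℝ) ^ (-κ)) ⊆ BadS n E κ Finset.univ j θ := by
    intro t ht
    refine ⟨⟨?_, ht.2.trans h2⟩, ?_⟩
    · rw [Finset.card_univ]
      exact h1.trans ht.1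
    · intro x hx
      have h3 := hcon x fun i => hx i (Finset.mem_univ i)
      by_contra h4
      push Not at h4
      unfold F at h4
      rw [abs_le] at h4
      rw [lt_abs] at h3
      rcases h3 with h3 | h3
      · linarith [h4.2, ht.2]
      · linarith [h4.1, ht.1, Real.rpow_pos_of_pos (PP_pos' j) (-κ)]
  have h3 := measure_mono (μ := volume) hsub
  rw [Real.volume_Icc, add_sub_cancel_left] at h3
  exact absurd (h3.trans_lt h) (lt_irrefl _)

lemma find_scale {a : ℕ → ℝ} (ha : Tendsto a atTop atTop) (N : ℕ) {τ : ℝ} (h : a N ≤ τ) :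
    ∃ j, N ≤ j ∧ a j ≤ τ ∧ τ < a (j + 1) := by
  classical
  have hex : ∃ j, N ≤ j ∧ τ < a (j + 1) := by
    have h1 : ∀ᶠ j in atTop, τ < a (j + 1) :=
      (ha.comp (tendsto_add_atTop_nat 1)).eventually_gt_atTop τ
    obtain ⟨j, h2, h3⟩ := (h1.and (eventually_ge_atTop N)).exists
    exact ⟨j, h3, h2⟩
  obtain ⟨h1, h2⟩ := Nat.find_spec hex
  set j := Nat.find hex with hj
  refine ⟨j, h1, ?_, h2⟩
  rcases Nat.eq_or_lt_of_le h1 with heq | hlt
  · rw [← heq]; exact h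
  · by_contra hcon
    push Not at hcon
    have h3 := Nat.find_min hex (m := j - 1) (by omega)
    apply h3
    refine ⟨by omega, ?_⟩
    rw [show j - 1 + 1 = j by omega]
    exact hcon

lemma rep_of_small (n : ℕ) {κ κ' : ℝ} (hκ0 : 0 ≤ κ) (hκ : ((n : ℝ) + 2) * κ < κ')
    (hs : 0 < Fintype.card ι) {θ : ι → ℝ}
    (h : ∀ᶠ j in atTop, volume (BadS n (4 ^ (n + 2) * Fintype.card ι + 1) κ' Finset.univ j θ)
      < ENNReal.ofReal ((PP j : ℝ) ^ (-κ'))) : Rep (n + 2) θ κ := by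
  have hs0 : (0:ℝ) < Fintype.card ι := by exact_mod_cast hs
  set s : ℝ := ((Fintype.card ι : ℕ) : ℝ) with hsdef
  have hκ'0 : 0 < κ' := by
    have : 0 ≤ ((n : ℝ) + 2) * κ := by positivity
    linarith
  intro M
  have hsmall : ∀ᶠ j in atTop, 2 * (4 ^ (n + 2) * s) ^ κ * (PP j : ℝ) ^ (((n : ℝ) + 2) * κ - κ') ≤ 1 := by
    have h1 : Tendsto (fun x : ℝ => x ^ (((n : ℝ) + 2) * κ - κ')) atTop (nhds 0) := by
      have := tendsto_rpow_neg_atTop (y := κ' - ((n : ℝ) + 2) * κ) (by linarith)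
      refine this.congr fun x => ?_
      congr 1
      ring
    have h2 := (h1.comp PP_tendsto).const_mul (2 * (4 ^ (n + 2) * s) ^ κ)
    rw [mul_zero] at h2
    filter_upwards [h2.eventually (ge_mem_nhds one_pos)] with j hj
    exact hj
  obtain ⟨N, hN⟩ := eventually_atTop.1 ((h.and hsmall).and
    (PP_tendsto.eventually (eventually_ge_atTop (M : ℝ))))
  set a : ℕ → ℝ := fun j => 2 ^ (n + 2) * s * (PP j : ℝ) ^ (n + 2) with ha
  have hat : Tendsto a atTop atTop := by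
    apply Tendsto.const_mul_atTop (by positivity)
    exact (tendsto_pow_atTop (by omega)).comp PP_tendsto
  filter_upwards [eventually_ge_atTop (a N)] with τ hτ
  obtain ⟨j, hNj, h3, h4⟩ := find_scale hat N hτ
  obtain ⟨⟨h5, h6⟩, h7⟩ := hN j hNj
  have hP := PP_pos' j
  have hPP : (PP (j + 1) : ℝ) = 2 * PP j := by
    unfold PP; push_cast; ring
  have h4' : τ < 4 ^ (n + 2) * s * (PP j : ℝ) ^ (n + 2) := by
    refine h4.trans_le (le_of_eq ?_)
    rw [ha]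
    dsimp only
    rw [hPP, mul_pow, show (4:ℝ) = 2 * 2 by norm_num, mul_pow 2 2]
    ring
  have hr1 := rr_le hκ'0.le j
  have hP1 : (1:ℝ) ≤ (PP j : ℝ) ^ (n + 2) := one_le_pow₀ (by exact_mod_cast PP_pos j)
  obtain ⟨x, hx, hx2⟩ := cover n h5 h3 (by nlinarith)
  refine ⟨x, fun i => ?_, hx2.trans ?_⟩
  · have : (M : ℝ) ≤ x i := h7.trans (by exact_mod_cast hx i)
    exact_mod_cast this
  · have hτ0 : 0 < τ := lt_of_lt_of_le (by positivity) h3
    have h8 : τ ^ κ ≤ (4 ^ (n + 2) * s) ^ κ * (PP j : ℝ) ^ (((n : ℝ) + 2) * κ) := by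
      have h9 : τ ^ κ ≤ (4 ^ (n + 2) * s * (PP j : ℝ) ^ (n + 2)) ^ κ :=
        Real.rpow_le_rpow hτ0.le h4'.le hκ0
      refine h9.trans (le_of_eq ?_)
      rw [Real.mul_rpow (by positivity) (by positivity), ← Real.rpow_natCast (PP j : ℝ),
        ← Real.rpow_mul hP.le]
      congr 2
      push_cast
      ring
    rw [Real.rpow_neg hτ0.le, ← one_div, le_div_iff₀ (Real.rpow_pos_of_pos hτ0 _)]
    calc 2 * (PP j : ℝ) ^ (-κ') * τ ^ κ
        ≤ 2 * (PP j : ℝ) ^ (-κ') * ((4 ^ (n + 2) * s) ^ κ * (PP j : ℝ) ^ (((n : ℝ) + 2) * κ)) := by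
          gcongr
      _ = 2 * (4 ^ (n + 2) * s) ^ κ * ((PP j : ℝ) ^ (((n : ℝ) + 2) * κ) * (PP j : ℝ) ^ (-κ')) := by
          ring
      _ = 2 * (4 ^ (n + 2) * s) ^ κ * (PP j : ℝ) ^ (((n : ℝ) + 2) * κ - κ') := by
          rw [← Real.rpow_add hP]
          rfl
      _ ≤ 1 := h6

theorem cube_main (n m : ℕ) (hcard : Fintype.card ι = n + 3 + m) {κ : ℝ}
    (hκ : κ < (2 ^ m - ((n : ℝ) + 2)) / (((n : ℝ) + 2) * (2 ^ m + 1)))
    (hm : (n : ℝ) + 2 < 2 ^ m) :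
    ∀ᵐ θ ∂(cube ι), Rep (n + 2) θ κ := by
  set k : ℝ := (n : ℝ) + 2 with hk
  have hk0 : 0 < k := by positivity
  set κ0 : ℝ := (2 ^ m - k) / (2 ^ m + 1) with hκ0
  have hκ0pos : 0 < κ0 := div_pos (by linarith) (by positivity)
  have h1 : k * (max κ 0) < κ0 := by
    rcases le_total κ 0 with h | h
    · rw [max_eq_right h, mul_zero]; exact hκ0pos
    · rw [max_eq_left h]
      have h2 : κ * k < κ0 := by
        have : (2 ^ m - k) / (k * (2 ^ m + 1)) = κ0 / k := by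
          rw [hκ0]; field_simp
        rw [this, lt_div_iff₀ hk0] at hκ
        exact hκ
      linarith
  obtain ⟨κ', h2, h3⟩ := exists_between h1
  have hκ'0 : 0 ≤ κ' := by
    have : 0 ≤ k * max κ 0 := mul_nonneg hk0.le (le_max_right _ _)
    linarith
  have h4 : k + κ' < 2 ^ m * (1 - κ') := by
    rw [hκ0, lt_div_iff₀ (by positivity)] at h3
    nlinarith
  obtain ⟨e, he1, he2⟩ := exists_between h4
  -- choose the blocks
  obtain ⟨J0, hJ0sub, hJ0⟩ := Finset.exists_subset_card_eq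
    (s := (Finset.univ : Finset ι)) (n := n + 3) (by rw [Finset.card_univ, hcard]; omega)
  obtain ⟨o, hoJ⟩ : J0.Nonempty := by rw [← Finset.card_pos]; omega
  set K := J0.erase o with hK
  have hKcard : K.card = n + 2 := by rw [hK, Finset.card_erase_of_mem hoJ, hJ0]; rfl
  have ho : o ∉ K := Finset.notMem_erase o J0
  have hins : insert o K = J0 := Finset.insert_erase hoJ
  set E : ℝ := 4 ^ (n + 2) * Fintype.card ι + 1 with hE
  have hEge : 2 ^ (n + 2) * ((n : ℝ) + 3) ≤ E := by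
    have h5 : (2:ℝ) ^ (n + 2) ≤ 4 ^ (n + 2) := pow_le_pow_left₀ (by norm_num) (by norm_num) _
    have h6 : (n : ℝ) + 3 ≤ Fintype.card ι := by
      rw [hcard]; push_cast
      have : (0:ℝ) ≤ m := by positivity
      linarith
    have h7 : 2 ^ (n + 2) * ((n : ℝ) + 3) ≤ 4 ^ (n + 2) * Fintype.card ι :=
      mul_le_mul h5 h6 (by positivity) (by positivity)
    linarith
  have hstart : ∀ e < 1 - κ', Cl n E κ' J0 e := by
    intro e he
    rw [← hins]
    exact Cl_start n hKcard ho hEge hκ'0 he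
  set T := J0ᶜ with hT
  have hTcard : T.card = m := by
    rw [hT, Finset.card_compl, hcard, hJ0]; omega
  have hchain := Cl_chain n hstart T disjoint_compl_right e (by rw [hTcard]; exact he2)
  rw [hT, Finset.union_compl] at hchain
  filter_upwards [hchain] with θ hθ
  refine Rep.mono (rep_of_small n (le_max_right κ 0) h2 (by omega) ?_) (le_max_left _ _)
  filter_upwards [hθ, PP_tendsto.eventually (eventually_gt_atTop 1)] with j h5 h6
  refine h5.trans_lt ((ENNReal.ofReal_lt_ofReal_iff (Real.rpow_pos_of_pos (PP_pos' j) _)).2 ?_)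
  exact Real.rpow_lt_rpow_of_exponent_lt h6 (by linarith)

theorem cube_all (n m : ℕ) (hcard : Fintype.card ι = n + 3 + m) (hm : (n : ℝ) + 2 < 2 ^ m) :
    ∀ᵐ θ ∂(cube ι), ∀ κ : ℝ, κ < (2 ^ m - ((n : ℝ) + 2)) / (((n : ℝ) + 2) * (2 ^ m + 1)) →
      Rep (n + 2) θ κ := by
  set κ0 : ℝ := (2 ^ m - ((n : ℝ) + 2)) / (((n : ℝ) + 2) * (2 ^ m + 1)) with hκ0
  have h1 : ∀ q : ℕ, ∀ᵐ θ ∂(cube ι), Rep (n + 2) θ (κ0 - 1 / ((q : ℝ) + 1)) := by
    intro q
    refine cube_main n m hcard ?_ hm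
    have : (0:ℝ) < 1 / ((q : ℝ) + 1) := by positivity
    rw [← hκ0]
    linarith
  filter_upwards [ae_all_iff.2 h1] with θ hθ κ hκ
  obtain ⟨q, hq⟩ := exists_nat_one_div_lt (sub_pos.2 hκ)
  exact (hθ q).mono (by linarith)

omit [DecidableEq ι] in
/-- Integer translates of the shifts do not matter. -/
lemma Rep.shift {k : ℕ} {θ : ι → ℝ} {κ : ℝ} (z : ι → ℤ)
    (h : Rep k (fun i => θ i - z i) κ) : Rep k θ κ := by
  intro M
  set M' : ℕ := M + ∑ i, (z i).natAbs with hM'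
  filter_upwards [h M'] with τ hτ
  obtain ⟨x, hx, hx2⟩ := hτ
  have hge : ∀ i, (M : ℤ) ≤ (x i : ℤ) - z i := by
    intro i
    have h1 := hx i
    have h2 : (z i).natAbs ≤ ∑ i, (z i).natAbs :=
      Finset.single_le_sum (f := fun i => (z i).natAbs) (fun _ _ => Nat.zero_le _)
        (Finset.mem_univ i)
    omega
  refine ⟨fun i => ((x i : ℤ) - z i).toNat, fun i => ?_, ?_⟩
  · have := hge i
    show M ≤ ((x i : ℤ) - z i).toNat
    omega
  · have e : ∀ i, (((((x i : ℤ) - z i).toNat : ℕ) : ℝ) + θ i) = (x i : ℝ) + (θ i - z i) := by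
      intro i
      have h1 : ((((x i : ℤ) - z i).toNat : ℕ) : ℤ) = (x i : ℤ) - z i :=
        Int.toNat_of_nonneg (by have := hge i; omega)
      have h2 : ((((x i : ℤ) - z i).toNat : ℕ) : ℝ) = (x i : ℝ) - z i := by
        exact_mod_cast h1
      rw [h2]
      ring
    simp_rw [e]
    exact hx2

theorem main (n m : ℕ) (hcard : Fintype.card ι = n + 3 + m) (hm : (n : ℝ) + 2 < 2 ^ m) :
    ∀ᵐ θ : ι → ℝ, ∀ κ : ℝ, κ < (2 ^ m - ((n : ℝ) + 2)) / (((n : ℝ) + 2) * (2 ^ m + 1)) →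
      Rep (n + 2) θ κ := by
  set κ0 : ℝ := (2 ^ m - ((n : ℝ) + 2)) / (((n : ℝ) + 2) * (2 ^ m + 1)) with hκ0
  have h1 := cube_all (ι := ι) n m hcard hm
  have hcube : cube ι = (volume : Measure (ι → ℝ)).restrict (Set.univ.pi fun _ => Set.Icc 0 1) := by
    unfold cube
    rw [volume_pi, Measure.restrict_pi_pi]
  rw [hcube, ae_restrict_iff' (MeasurableSet.univ_pi fun _ => measurableSet_Icc)] at h1
  have h2 : ∀ z : ι → ℤ, ∀ᵐ θ : ι → ℝ, (fun i => θ i - (z i : ℝ)) ∈ (Set.univ.pi fun _ => Set.Icc (0:ℝ) 1) →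
      ∀ κ : ℝ, κ < κ0 → Rep (n + 2) (fun i => θ i - (z i : ℝ)) κ := by
    intro z
    exact (measurePreserving_sub_right (volume : Measure (ι → ℝ))
      (fun i => (z i : ℝ))).quasiMeasurePreserving.ae h1
  filter_upwards [ae_all_iff.2 h2] with θ hθ κ hκ
  refine Rep.shift (fun i => ⌊θ i⌋) (hθ (fun i => ⌊θ i⌋) ?_ κ hκ)
  intro i _
  have h3 := Int.self_sub_floor (θ i)
  show θ i - (⌊θ i⌋ : ℝ) ∈ Set.Icc (0:ℝ) 1
  rw [h3]
  exact ⟨Int.fract_nonneg _, (Int.fract_lt_one _).le⟩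

end Pool.Agent.X100.WS
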