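import Pool.Agent.X100.WS.Elem

/-! Adding one variable squares the exceptional proportion. -/

namespace Pool.Agent.X100.WS

open Finset MeasureTheory

/-- Autocorrelation of a set. -/
noncomputable def RR (E : Set ℝ) (w : ℝ) : ENNReal :=
  ∫⁻ t, E.indicator 1 t * E.indicator 1 (t - w)

lemma RR_meas {E : Set ℝ} (hE : MeasurableSet E) : Measurable (RR E) := by
  unfold RR
  have h1 : Measurable (E.indicator (1 : ℝ → ENNReal)) := measurable_one.indicator hE
  have : Measurable fun p : ℝ × ℝ =>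
      E.indicator (1 : ℝ → ENNReal) p.2 * E.indicator (1 : ℝ → ENNReal) (p.2 - p.1) :=
    (h1.comp measurable_snd).mul (h1.comp (measurable_snd.sub measurable_fst))
  exact this.lintegral_prod_right'

lemma RR_total {E : Set ℝ} (hE : MeasurableSet E) : ∫⁻ w, RR E w = volume E ^ 2 := by
  unfold RR
  have h1 : Measurable (E.indicator (1 : ℝ → ENNReal)) := measurable_one.indicator hE
  rw [lintegral_lintegral_swap]
  · have h2 : ∀ t : ℝ, (∫⁻ w, E.indicator (1 : ℝ → ENNReal) t * E.indicator 1 (t - w))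
        = E.indicator 1 t * volume E := by
      intro t
      rw [lintegral_const_mul (E.indicator (1 : ℝ → ENNReal) t)
        (f := fun w => E.indicator (1 : ℝ → ENNReal) (t - w))
        (h1.comp (measurable_const.sub measurable_id))]
      congr 1
      rw [lintegral_sub_left_eq_self (fun s => E.indicator (1 : ℝ → ENNReal) s) t,
        lintegral_indicator_one hE]
    simp_rw [h2]
    rw [lintegral_mul_const _ h1, lintegral_indicator_one hE, sq]
  · exact ((h1.comp measurable_snd).mul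
      (h1.comp (measurable_snd.sub measurable_fst))).aemeasurable

lemma RR_eq {E : Set ℝ} (hE : MeasurableSet E) (w : ℝ) :
    RR E w = volume (E ∩ {t | t - w ∈ E}) := by
  unfold RR
  have hm : MeasurableSet {t : ℝ | t - w ∈ E} := (measurable_id.sub_const w) hE
  rw [← lintegral_indicator_one (hE.inter hm)]
  congr 1
  ext t
  by_cases h1 : t ∈ E <;> by_cases h2 : t - w ∈ E <;> simp [Set.indicator, h1, h2]

lemma unfold_sum (G : ℝ → ENNReal) (P Q : ℕ) :
    ∑ x ∈ Finset.Ico P (P + Q), ∫⁻ s in Set.Ico (0:ℝ) 1, G (x + s)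
      = ∫⁻ u in Set.Ico (P : ℝ) (P + Q), G u := by
  induction Q with
  | zero => simp
  | succ Q ih =>
    rw [← add_assoc, Finset.sum_Ico_succ_top (by omega), ih]
    have h1 : (∫⁻ s in Set.Ico (0:ℝ) 1, G (((P + Q : ℕ) : ℝ) + s))
        = ∫⁻ u in Set.Ico ((P:ℝ) + Q) (P + Q + 1), G u := by
      have := (measurePreserving_add_left volume (((P + Q : ℕ) : ℝ))).setLIntegral_comp_preimage_emb
        (measurableEmbedding_addLeft _) G (Set.Ico ((P:ℝ) + Q) (P + Q + 1))
      rw [← this]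
      congr 1
      congr 1
      ext s
      simp only [Set.mem_preimage, Set.mem_Ico]
      push_cast
      constructor
      · rintro ⟨h1, h2⟩; constructor <;> linarith
      · rintro ⟨h1, h2⟩; constructor <;> linarith
    rw [h1]
    have h2 : Set.Ico (P : ℝ) (P + ((Q + 1 : ℕ) : ℝ))
        = Set.Ico (P : ℝ) (P + Q) ∪ Set.Ico ((P:ℝ) + Q) (P + Q + 1) := by
      rw [Set.Ico_union_Ico_eq_Ico (by linarith [(Nat.cast_nonneg Q : (0:ℝ) ≤ Q)]) (by linarith)]
      push_cast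
      ring_nf
    rw [h2, lintegral_union measurableSet_Ico]
    rw [Set.disjoint_left]
    rintro a ⟨_, h3⟩ ⟨h4, _⟩
    linarith

lemma change_var (n : ℕ) {h P Q : ℝ} (hP : 0 < P) (hh : 0 < h) (R : ℝ → ENNReal) :
    ENNReal.ofReal (h * P ^ n) * ∫⁻ u in Set.Ico P (P + Q), R ((u + h) ^ (n + 2) - u ^ (n + 2))
      ≤ ∫⁻ w, R w := by
  set w : ℝ → ℝ := fun u => (u + h) ^ (n + 2) - u ^ (n + 2) with hw
  set w' : ℝ → ℝ := fun u => (n + 2) * (u + h) ^ (n + 1) - (n + 2) * u ^ (n + 1) with hw'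
  have hd : ∀ u ∈ Set.Ico P (P + Q), HasDerivWithinAt w (w' u) (Set.Ico P (P + Q)) u := by
    intro u _
    have hA : HasDerivAt (fun u : ℝ => (u + h) ^ (n + 2)) ((n + 2) * (u + h) ^ (n + 1)) u := by
      simpa using ((hasDerivAt_id' u).add_const h).fun_pow (n + 2)
    have hB : HasDerivAt (fun u : ℝ => u ^ (n + 2)) ((n + 2) * u ^ (n + 1)) u := by
      simpa using (hasDerivAt_id' u).fun_pow (n + 2)
    have h2 : HasDerivAt w (w' u) u := hA.sub hB
    exact h2.hasDerivWithinAt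
  have hlow : ∀ u ∈ Set.Ico P (P + Q), h * P ^ n ≤ w' u := by
    intro u hu
    have h1 := pow_sub_ge n (a := u + h) (b := u) hP.le hu.1 (by linarith)
    rw [hw']
    dsimp only
    have h2 : 0 ≤ h * P ^ n := by positivity
    have h3 : (u + h - u) * P ^ n = h * P ^ n := by ring
    rw [h3] at h1
    have h4 : (0:ℝ) ≤ n := by positivity
    nlinarith
  have hinj : Set.InjOn w (Set.Ico P (P + Q)) := by
    intro u hu v hv huv
    by_contra hne
    rcases lt_or_gt_of_ne hne with hlt | hlt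
    · have := diff_incr n (a := u + h) (b := u) (s := v - u) hP.le hu.1 (by linarith) (by linarith)
      have h2 : 0 < (u + h - u) * (v - u) * P ^ n := by
        have : 0 < v - u := by linarith
        have : u + h - u = h := by ring
        rw [this]
        positivity
      rw [show u + h + (v - u) = v + h by ring, show u + (v - u) = v by ring] at this
      have huv' : (u + h) ^ (n + 2) - u ^ (n + 2) = (v + h) ^ (n + 2) - v ^ (n + 2) := huv
      linarith
    · have := diff_incr n (a := v + h) (b := v) (s := u - v) hP.le hv.1 (by linarith) (by linarith)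
      have h2 : 0 < (v + h - v) * (u - v) * P ^ n := by
        have : 0 < u - v := by linarith
        have : v + h - v = h := by ring
        rw [this]
        positivity
      rw [show v + h + (u - v) = u + h by ring, show v + (u - v) = u by ring] at this
      have huv' : (u + h) ^ (n + 2) - u ^ (n + 2) = (v + h) ^ (n + 2) - v ^ (n + 2) := huv
      linarith
  have hcv := lintegral_image_eq_lintegral_abs_deriv_mul measurableSet_Ico hd hinj R
  calc ENNReal.ofReal (h * P ^ n) * ∫⁻ u in Set.Ico P (P + Q), R (w u)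
      ≤ ∫⁻ u in Set.Ico P (P + Q), ENNReal.ofReal (h * P ^ n) * R (w u) :=
        lintegral_const_mul_le _ _
    _ ≤ ∫⁻ u in Set.Ico P (P + Q), ENNReal.ofReal |w' u| * R (w u) := by
        refine setLIntegral_mono' measurableSet_Ico fun u hu => ?_
        gcongr
        exact (hlow u hu).trans (le_abs_self _)
    _ = ∫⁻ x in w '' Set.Ico P (P + Q), R x := hcv.symm
    _ ≤ ∫⁻ x, R x := setLIntegral_le_lintegral _ _

/-- The set of `t` all of whose translates by shifted powers lie in `E`. -/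
def Next (E : Set ℝ) (n P : ℕ) (s : ℝ) : Set ℝ :=
  {t | ∀ x : ℕ, P ≤ x → x < 2 * P → t - ((x : ℝ) + s) ^ (n + 2) ∈ E}

theorem squaring (n : ℕ) {E : Set ℝ} (hE : MeasurableSet E) {P Q : ℕ} (hQ : 0 < Q)
    (hP : P = 4 * Q) :
    ENNReal.ofReal ((Q:ℝ) ^ 2 * (P : ℝ) ^ n) * ∫⁻ s in Set.Icc (0:ℝ) 1, volume (Next E n P s)
      ≤ volume E ^ 2 := by
  have hP0 : (0:ℝ) < P := by
    have : 0 < P := by omega
    exact_mod_cast this
  have hQ0 : (0:ℝ) < Q := by exact_mod_cast hQ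
  have hR := RR_meas hE
  -- one pair
  have h1 : ∀ h ∈ Finset.Ico Q (2 * Q), ∀ x ∈ Finset.Ico P (P + Q), ∀ s : ℝ,
      volume (Next E n P s)
        ≤ RR E ((((x : ℝ) + s) + (h : ℝ)) ^ (n + 2) - ((x : ℝ) + s) ^ (n + 2)) := by
    intro h hh x hx s
    rw [Finset.mem_Ico] at hh hx
    rw [RR_eq hE]
    have hpre : Next E n P s ⊆ (fun t => t - ((x : ℝ) + s) ^ (n + 2)) ⁻¹'
        (E ∩ {t | t - ((((x : ℝ) + s) + (h : ℝ)) ^ (n + 2) - ((x : ℝ) + s) ^ (n + 2)) ∈ E}) := by
      intro t ht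
      refine ⟨ht x (by omega) (by omega), ?_⟩
      have := ht (x + h) (by omega) (by omega)
      push_cast at this
      have e : t - ((x : ℝ) + s) ^ (n + 2)
          - ((((x : ℝ) + s) + (h : ℝ)) ^ (n + 2) - ((x : ℝ) + s) ^ (n + 2))
          = t - ((x : ℝ) + h + s) ^ (n + 2) := by ring
      show t - ((x : ℝ) + s) ^ (n + 2)
          - ((((x : ℝ) + s) + (h : ℝ)) ^ (n + 2) - ((x : ℝ) + s) ^ (n + 2)) ∈ E
      rw [e]
      exact this
    refine (measure_mono hpre).trans (le_of_eq ?_)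
    refine (measurePreserving_sub_right volume _).measure_preimage ?_
    exact (hE.inter ((measurable_id.sub_const _) hE)).nullMeasurableSet
  have h2 : (Q : ENNReal) * (Q : ENNReal) * ∫⁻ s in Set.Icc (0:ℝ) 1, volume (Next E n P s)
      ≤ ∑ h ∈ Finset.Ico Q (2 * Q), ∑ x ∈ Finset.Ico P (P + Q),
        ∫⁻ s in Set.Ico (0:ℝ) 1, RR E ((((x : ℝ) + s) + (h : ℝ)) ^ (n + 2) - ((x : ℝ) + s) ^ (n + 2)) := by
    have hIcc : ∫⁻ s in Set.Icc (0:ℝ) 1, volume (Next E n P s)
        = ∫⁻ s in Set.Ico (0:ℝ) 1, volume (Next E n P s) :=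
      setLIntegral_congr Ico_ae_eq_Icc.symm
    rw [hIcc]
    have h3 : ∀ h ∈ Finset.Ico Q (2 * Q), ∀ x ∈ Finset.Ico P (P + Q),
        ∫⁻ s in Set.Ico (0:ℝ) 1, volume (Next E n P s) ≤
        ∫⁻ s in Set.Ico (0:ℝ) 1, RR E ((((x : ℝ) + s) + (h : ℝ)) ^ (n + 2) - ((x : ℝ) + s) ^ (n + 2)) :=
      fun h hh x hx => lintegral_mono fun s => h1 h hh x hx s
    have h4 := Finset.sum_le_sum fun h hh => Finset.sum_le_sum fun x hx => h3 h hh x hx
    refine le_trans (le_of_eq ?_) h4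
    rw [Finset.sum_const, Finset.sum_const, Nat.card_Ico, Nat.card_Ico]
    rw [show 2 * Q - Q = Q by omega, show P + Q - P = Q by omega, nsmul_eq_mul, nsmul_eq_mul]
    ring
  have h5 : ∀ h ∈ Finset.Ico Q (2 * Q), ENNReal.ofReal ((Q:ℝ) * (P:ℝ) ^ n) *
      ∑ x ∈ Finset.Ico P (P + Q),
        ∫⁻ s in Set.Ico (0:ℝ) 1, RR E ((((x : ℝ) + s) + (h : ℝ)) ^ (n + 2) - ((x : ℝ) + s) ^ (n + 2))
      ≤ volume E ^ 2 := by
    intro h hh
    rw [Finset.mem_Ico] at hh
    rw [unfold_sum (fun u => RR E ((u + (h : ℝ)) ^ (n + 2) - u ^ (n + 2))) P Q, ← RR_total hE]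
    refine le_trans ?_ (change_var n (h := h) (P := P) (Q := Q) hP0 (by
      have : 0 < h := by omega
      exact_mod_cast this) (RR E))
    gcongr
    exact_mod_cast hh.1
  have h6 : ENNReal.ofReal ((Q:ℝ) * (P:ℝ) ^ n) * ((Q : ENNReal) * (Q : ENNReal) *
      ∫⁻ s in Set.Icc (0:ℝ) 1, volume (Next E n P s)) ≤ (Q : ENNReal) * volume E ^ 2 := by
    calc _ ≤ ENNReal.ofReal ((Q:ℝ) * (P:ℝ) ^ n) * (∑ h ∈ Finset.Ico Q (2 * Q),
          ∑ x ∈ Finset.Ico P (P + Q), ∫⁻ s in Set.Ico (0:ℝ) 1,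
          RR E ((((x : ℝ) + s) + (h : ℝ)) ^ (n + 2) - ((x : ℝ) + s) ^ (n + 2))) := by gcongr
      _ = ∑ h ∈ Finset.Ico Q (2 * Q), ENNReal.ofReal ((Q:ℝ) * (P:ℝ) ^ n) *
        ∑ x ∈ Finset.Ico P (P + Q), ∫⁻ s in Set.Ico (0:ℝ) 1,
          RR E ((((x : ℝ) + s) + (h : ℝ)) ^ (n + 2) - ((x : ℝ) + s) ^ (n + 2)) := by
          rw [Finset.mul_sum]
      _ ≤ ∑ h ∈ Finset.Ico Q (2 * Q), volume E ^ 2 := Finset.sum_le_sum h5
      _ = _ := by
          rw [Finset.sum_const, Nat.card_Ico, show 2 * Q - Q = Q by omega, nsmul_eq_mul]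
  have hQE : (Q : ENNReal) ≠ 0 := by exact_mod_cast hQ.ne'
  have hQT : (Q : ENNReal) ≠ ⊤ := ENNReal.natCast_ne_top Q
  rw [← ENNReal.mul_le_mul_iff_right hQE hQT]
  refine le_trans (le_of_eq ?_) h6
  have e1 : ENNReal.ofReal ((Q:ℝ) ^ 2 * (P : ℝ) ^ n)
      = ENNReal.ofReal ((Q:ℝ) * (P:ℝ) ^ n) * (Q : ENNReal) := by
    rw [← ENNReal.ofReal_natCast Q, ← ENNReal.ofReal_mul (by positivity)]
    congr 1
    ring
  rw [e1]
  ring

end Pool.Agent.X100.WS
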