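import Pool.Agent.X100.WS.Stage0
import Pool.Agent.X100.WS.Sq

/-! Borel-Cantelli along powers of two, and the induction step. -/

namespace Pool.Agent.X100.WS

open Finset MeasureTheory Filter

variable {ι : Type*} [Fintype ι] [DecidableEq ι]

/-- The scales. -/
def PP (j : ℕ) : ℕ := 2 ^ (j + 2)

lemma PP_pos (j : ℕ) : 0 < PP j := by unfold PP; positivity

lemma PP_pos' (j : ℕ) : (0:ℝ) < PP j := by exact_mod_cast PP_pos j

lemma PP_four (j : ℕ) : PP j = 4 * 2 ^ j := by unfold PP; ring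

lemma PP_ge (j : ℕ) : 2 ≤ PP j := by
  rw [PP_four]
  have : 0 < 2 ^ j := by positivity
  omega

lemma PP_tendsto : Tendsto (fun j => (PP j : ℝ)) atTop atTop := by
  unfold PP
  push_cast
  exact (tendsto_pow_atTop_atTop_of_one_lt (by norm_num : (1:ℝ) < 2)).comp
    (tendsto_add_atTop_nat 2)

lemma PP_summable {δ : ℝ} (hδ : 0 < δ) (C : ℝ) :
    Summable fun j : ℕ => C * (PP j : ℝ) ^ (-δ) := by
  apply Summable.mul_left
  have e : (fun j : ℕ => (PP j : ℝ) ^ (-δ)) = fun j : ℕ => ((2:ℝ) ^ (-δ)) ^ 2 * ((2:ℝ) ^ (-δ)) ^ j := by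
    ext j
    unfold PP
    push_cast
    rw [← pow_add, ← Real.rpow_natCast, ← Real.rpow_mul (by norm_num), ← Real.rpow_natCast,
      ← Real.rpow_mul (by norm_num)]
    congr 1
    push_cast
    ring
  rw [e]
  apply Summable.mul_left
  apply summable_geometric_of_lt_one (by positivity)
  exact Real.rpow_lt_one_of_one_lt_of_neg (by norm_num) (by linarith)

omit [DecidableEq ι] in
lemma bc (A : ℕ → Set (ι → ℝ)) (C : ℝ) {δ : ℝ} (hδ : 0 < δ)
    (h : ∀ᶠ j in atTop, cube ι (A j) ≤ ENNReal.ofReal (C * (PP j : ℝ) ^ (-δ))) :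
    ∀ᵐ θ ∂(cube ι), ∀ᶠ j in atTop, θ ∉ A j := by
  obtain ⟨N, hN⟩ := eventually_atTop.1 h
  set A' : ℕ → Set (ι → ℝ) := fun j => if N ≤ j then A j else ∅ with hA'
  have h1 : ∀ j, cube ι (A' j) ≤ ENNReal.ofReal (C * (PP j : ℝ) ^ (-δ)) := by
    intro j
    rw [hA']
    dsimp only
    split_ifs with hj
    · exact hN j hj
    · simp
  have h2 : ∑' j, cube ι (A' j) ≠ ⊤ := by
    refine ne_top_of_le_ne_top (PP_summable hδ C).tsum_ofReal_ne_top (ENNReal.tsum_le_tsum h1)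
  filter_upwards [ae_eventually_notMem h2] with θ hθ
  filter_upwards [hθ, eventually_ge_atTop N] with j hj hNj
  rw [hA'] at hj
  simpa [hNj] using hj

/-- The exceptional set at scale `j`. -/
noncomputable def BadS (n : ℕ) (E κ : ℝ) (J : Finset ι) (j : ℕ) (θ : ι → ℝ) : Set ℝ :=
  Bad J n (PP j) ((PP j : ℝ) ^ (-κ)) (2 ^ (n + 2) * J.card * (PP j : ℝ) ^ (n + 2))
    (E * (PP j : ℝ) ^ (n + 2)) θ

lemma Bad_measurable (J : Finset ι) (n P : ℕ) (r T1 T2 : ℝ) :
    MeasurableSet {p : (ι → ℝ) × ℝ | p.2 ∈ Bad J n P r T1 T2 p.1} := by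
  have e : {p : (ι → ℝ) × ℝ | p.2 ∈ Bad J n P r T1 T2 p.1}
      = (Prod.snd ⁻¹' (Set.Icc T1 T2)) ∩ ⋂ x : ι → ℕ, {p : (ι → ℝ) × ℝ |
        (∀ i ∈ J, P ≤ x i) → r < |F J (n + 2) x p.1 - p.2|} := by
    ext p
    simp [Bad]
  rw [e]
  refine (measurable_snd measurableSet_Icc).inter (MeasurableSet.iInter fun x => ?_)
  by_cases h : ∀ i ∈ J, P ≤ x i
  · have e2 : {p : (ι → ℝ) × ℝ | (∀ i ∈ J, P ≤ x i) → r < |F J (n + 2) x p.1 - p.2|}
        = {p : (ι → ℝ) × ℝ | r < |F J (n + 2) x p.1 - p.2|} := by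
      ext p
      exact ⟨fun hp => hp h, fun hp _ => hp⟩
    rw [e2]
    have hc : Continuous fun p : (ι → ℝ) × ℝ => |F J (n + 2) x p.1 - p.2| :=
      (((F_continuous J (n + 2) x).comp continuous_fst).sub continuous_snd).abs
    exact (isOpen_lt continuous_const hc).measurableSet
  · have e2 : {p : (ι → ℝ) × ℝ | (∀ i ∈ J, P ≤ x i) → r < |F J (n + 2) x p.1 - p.2|}
        = Set.univ := by
      ext p
      simp only [Set.mem_univ, iff_true]
      exact fun hcon => absurd hcon h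
    rw [e2]
    exact MeasurableSet.univ

lemma Bad_vol_measurable (J : Finset ι) (n P : ℕ) (r T1 T2 : ℝ) :
    Measurable fun θ : ι → ℝ => volume (Bad J n P r T1 T2 θ) :=
  measurable_measure_prodMk_left (Bad_measurable J n P r T1 T2)

lemma Bad_slice_measurable (J : Finset ι) (n P : ℕ) (r T1 T2 : ℝ) (θ : ι → ℝ) :
    MeasurableSet (Bad J n P r T1 T2 θ) :=
  measurable_prodMk_left (Bad_measurable J n P r T1 T2)

omit [DecidableEq ι] in
lemma Bad_update {J : Finset ι} (n P : ℕ) (r T1 T2 : ℝ) (θ : ι → ℝ) {i : ι} (hi : i ∉ J)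
    (s : ℝ) [DecidableEq ι] : Bad J n P r T1 T2 (Function.update θ i s) = Bad J n P r T1 T2 θ := by
  unfold Bad
  ext t
  simp only [Set.mem_setOf_eq, F_update_not hi]

lemma cube_meas : MeasurableSet {θ : ι → ℝ | ∀ l, θ l ∈ Set.Icc (0:ℝ) 1} := by
  have e : {θ : ι → ℝ | ∀ l, θ l ∈ Set.Icc (0:ℝ) 1} = ⋂ l, (fun θ : ι → ℝ => θ l) ⁻¹' (Set.Icc 0 1) := by
    ext θ; simp
  rw [e]
  exact MeasurableSet.iInter fun l => (measurable_pi_apply l) measurableSet_Icc

lemma Next_measurable {E : Set ℝ} (hE : MeasurableSet E) (n P : ℕ) :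
    Measurable fun s : ℝ => volume (Next E n P s) := by
  have h : MeasurableSet {p : ℝ × ℝ | p.2 ∈ Next E n P p.1} := by
    have e : {p : ℝ × ℝ | p.2 ∈ Next E n P p.1} = ⋂ x : ℕ, {p : ℝ × ℝ |
        P ≤ x → x < 2 * P → p.2 - ((x : ℝ) + p.1) ^ (n + 2) ∈ E} := by
      ext p
      simp [Next]
    rw [e]
    refine MeasurableSet.iInter fun x => ?_
    by_cases h1 : P ≤ x ∧ x < 2 * P
    · have e2 : {p : ℝ × ℝ | P ≤ x → x < 2 * P → p.2 - ((x : ℝ) + p.1) ^ (n + 2) ∈ E}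
          = (fun p : ℝ × ℝ => p.2 - ((x : ℝ) + p.1) ^ (n + 2)) ⁻¹' E := by
        ext p
        exact ⟨fun hp => hp h1.1 h1.2, fun hp _ _ => hp⟩
      rw [e2]
      have hm : Measurable fun p : ℝ × ℝ => p.2 - ((x : ℝ) + p.1) ^ (n + 2) := by fun_prop
      exact hm hE
    · have e2 : {p : ℝ × ℝ | P ≤ x → x < 2 * P → p.2 - ((x : ℝ) + p.1) ^ (n + 2) ∈ E}
          = Set.univ := by
        ext p
        simp only [Set.mem_univ, iff_true]
        exact fun ha hb => absurd ⟨ha, hb⟩ h1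
      rw [e2]
      exact MeasurableSet.univ
  exact measurable_measure_prodMk_left h

lemma Bad_next {J : Finset ι} {i : ι} (hi : i ∉ J) (n : ℕ) (E κ : ℝ) (j : ℕ) (θ : ι → ℝ)
    {s : ℝ} (hs : s ∈ Set.Icc (0:ℝ) 1) :
    BadS n E κ (insert i J) j (Function.update θ i s) ⊆ Next (BadS n E κ J j θ) n (PP j) s := by
  intro t ht x hx1 hx2
  obtain ⟨ht1, ht2⟩ := ht
  have hP := PP_pos' j
  have hs0 := hs.1
  have hxs : ((x : ℝ) + s) ^ (n + 2) ≤ (2 * (PP j : ℝ)) ^ (n + 2) := by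
    have h3 : (x : ℝ) + s ≤ 2 * PP j := by
      have : x + 1 ≤ 2 * PP j := hx2
      have : ((x + 1 : ℕ) : ℝ) ≤ ((2 * PP j : ℕ) : ℝ) := by exact_mod_cast this
      push_cast at this
      linarith [hs.2]
    exact pow_le_pow_left₀ (by positivity) h3 _
  have hxs0 : 0 ≤ ((x : ℝ) + s) ^ (n + 2) := by positivity
  refine ⟨⟨?_, ?_⟩, ?_⟩
  · have h4 := ht1.1
    rw [Finset.card_insert_of_notMem hi] at h4
    push_cast at h4
    rw [mul_pow] at hxs
    nlinarith
  · linarith [ht1.2]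
  · intro y hy
    have h5 := ht2 (Function.update y i x) ?_
    · have e : F (insert i J) (n + 2) (Function.update y i x) (Function.update θ i s)
          = F J (n + 2) y θ + ((x : ℝ) + s) ^ (n + 2) := by
        unfold F
        rw [Finset.sum_insert hi, add_comm]
        congr 1
        · refine Finset.sum_congr rfl fun l hl => ?_
          have hl' : l ≠ i := fun h => hi (by rw [← h]; exact hl)
          rw [Function.update_of_ne hl', Function.update_of_ne hl']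
        · rw [Function.update_self, Function.update_self]
      rw [e] at h5
      have e2 : F J (n + 2) y θ - (t - ((x : ℝ) + s) ^ (n + 2))
          = F J (n + 2) y θ + ((x : ℝ) + s) ^ (n + 2) - t := by ring
      rw [e2]
      exact h5
    · intro l hl
      rcases Finset.mem_insert.1 hl with rfl | hl
      · rw [Function.update_self]; exact hx1
      · have hl' : l ≠ i := fun h => hi (by rw [← h]; exact hl)
        rw [Function.update_of_ne hl']
        exact hy l hl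

/-- The statement proved by induction. -/
def Cl (n : ℕ) (E κ : ℝ) (J : Finset ι) (e : ℝ) : Prop :=
  ∀ᵐ θ ∂(cube ι), ∀ᶠ j in atTop,
    volume (BadS n E κ J j θ) ≤ ENNReal.ofReal ((PP j : ℝ) ^ ((n : ℝ) + 2 - e))

theorem Cl_step (n : ℕ) {E κ : ℝ} {J : Finset ι} {i : ι} (hi : i ∉ J) {e e' : ℝ}
    (he : e' < 2 * e) (h : Cl n E κ J e) : Cl n E κ (insert i J) e' := by
  set A : ℕ → Set (ι → ℝ) := fun j => {θ | (∀ l, θ l ∈ Set.Icc (0:ℝ) 1) ∧
    volume (BadS n E κ J j θ) ≤ ENNReal.ofReal ((PP j : ℝ) ^ ((n : ℝ) + 2 - e)) ∧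
    ENNReal.ofReal ((PP j : ℝ) ^ ((n : ℝ) + 2 - e')) < volume (BadS n E κ (insert i J) j θ)} with hA
  have hAm : ∀ j, MeasurableSet (A j) := by
    intro j
    refine cube_meas.inter (MeasurableSet.inter ?_ ?_)
    · exact measurableSet_le (Bad_vol_measurable _ _ _ _ _ _) measurable_const
    · exact measurableSet_lt measurable_const (Bad_vol_measurable _ _ _ _ _ _)
  have hbound : ∀ j, cube ι (A j) ≤ ENNReal.ofReal (16 * (PP j : ℝ) ^ (-(2 * e - e'))) := by
    intro j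
    refine slice (hAm j) i fun θ => ?_
    set S : Set ℝ := {t | Function.update θ i t ∈ A j} with hS
    rcases S.eq_empty_or_nonempty with hemp | ⟨s0, hs0⟩
    · rw [hemp]; simp
    have hP := PP_pos' j
    set E0 : Set ℝ := BadS n E κ J j θ with hE0
    have hE0m : MeasurableSet E0 := Bad_slice_measurable _ _ _ _ _ _ _
    have hvol : volume E0 ≤ ENNReal.ofReal ((PP j : ℝ) ^ ((n : ℝ) + 2 - e)) := by
      have h1 := hs0.2.1
      unfold BadS at h1
      rw [Bad_update n _ _ _ _ θ hi] at h1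
      exact h1
    have hsub : S ⊆ {s | ENNReal.ofReal ((PP j : ℝ) ^ ((n : ℝ) + 2 - e'))
        ≤ volume (Next E0 n (PP j) s)} := by
      intro s hs
      have hs1 : s ∈ Set.Icc (0:ℝ) 1 := by
        have := hs.1 i
        rwa [Function.update_self] at this
      exact hs.2.2.le.trans (measure_mono (Bad_next hi n E κ j θ hs1))
    have hmk := mul_meas_ge_le_lintegral (μ := volume.restrict (Set.Icc (0:ℝ) 1))
      (Next_measurable hE0m n (PP j)) (ENNReal.ofReal ((PP j : ℝ) ^ ((n : ℝ) + 2 - e')))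
    have hsq := squaring n hE0m (P := PP j) (Q := 2 ^ j) (by positivity) (PP_four j)
    have hmono := measure_mono (μ := volume.restrict (Set.Icc (0:ℝ) 1)) hsub
    have hc : (0:ℝ) < ((2 ^ j : ℕ) : ℝ) ^ 2 * (PP j : ℝ) ^ n := by
      have : (0:ℝ) < ((2 ^ j : ℕ) : ℝ) := by positivity
      positivity
    have hb : (0:ℝ) < (PP j : ℝ) ^ ((n : ℝ) + 2 - e') := Real.rpow_pos_of_pos hP _
    have hfin : ENNReal.ofReal ((((2 ^ j : ℕ) : ℝ) ^ 2 * (PP j : ℝ) ^ n)
        * (PP j : ℝ) ^ ((n : ℝ) + 2 - e')) * (volume.restrict (Set.Icc (0:ℝ) 1)) S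
        ≤ ENNReal.ofReal (((PP j : ℝ) ^ ((n : ℝ) + 2 - e)) ^ 2) := by
      rw [ENNReal.ofReal_mul hc.le, mul_assoc, ENNReal.ofReal_pow (Real.rpow_pos_of_pos hP _).le]
      calc _ ≤ ENNReal.ofReal (((2 ^ j : ℕ) : ℝ) ^ 2 * (PP j : ℝ) ^ n)
            * ∫⁻ s in Set.Icc (0:ℝ) 1, volume (Next E0 n (PP j) s) := by
            gcongr
            exact le_trans (by gcongr) hmk
        _ ≤ volume E0 ^ 2 := hsq
        _ ≤ _ := by gcongr
    have hdiv : (volume.restrict (Set.Icc (0:ℝ) 1)) S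
        ≤ ENNReal.ofReal (((PP j : ℝ) ^ ((n : ℝ) + 2 - e)) ^ 2
          / ((((2 ^ j : ℕ) : ℝ) ^ 2 * (PP j : ℝ) ^ n) * (PP j : ℝ) ^ ((n : ℝ) + 2 - e'))) := by
      rw [ENNReal.ofReal_div_of_pos (by positivity), ENNReal.le_div_iff_mul_le
        (Or.inl (ENNReal.ofReal_pos.2 (by positivity)).ne') (Or.inl ENNReal.ofReal_ne_top), mul_comm]
      exact hfin
    refine hdiv.trans (ENNReal.ofReal_le_ofReal (le_of_eq ?_))
    have hPQ : (PP j : ℝ) = 4 * ((2 ^ j : ℕ) : ℝ) := by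
      rw [PP_four]; push_cast; ring
    have e1 : ((2 ^ j : ℕ) : ℝ) ^ 2 * (PP j : ℝ) ^ n = (PP j : ℝ) ^ ((n : ℝ) + 2) / 16 := by
      have : (PP j : ℝ) ^ ((n : ℝ) + 2) = (PP j : ℝ) ^ (n + 2) := by
        rw [← Real.rpow_natCast]
        push_cast
        rfl
      rw [this, pow_add]
      have h16 : (PP j : ℝ) ^ 2 = 16 * ((2 ^ j : ℕ) : ℝ) ^ 2 := by rw [hPQ]; ring
      rw [h16]
      ring
    rw [e1, ← Real.rpow_natCast, ← Real.rpow_mul hP.le]
    rw [div_mul_eq_mul_div, ← Real.rpow_add hP, div_div_eq_mul_div, mul_comm _ (16:ℝ), mul_div_assoc,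
      ← Real.rpow_sub hP]
    congr 2
    push_cast
    ring
  have hbc := bc A 16 (δ := 2 * e - e') (by linarith) (Eventually.of_forall hbound)
  filter_upwards [h, hbc, ae_cube (ι := ι)] with θ h1 h2 h3
  filter_upwards [h1, h2] with j h4 h5
  by_contra hcon
  push Not at hcon
  exact h5 ⟨h3, h4, hcon⟩

end Pool.Agent.X100.WS
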