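import Pool.Agent.X100.WS.Step

/-! The first stage, almost surely. -/

namespace Pool.Agent.X100.WS

open Finset MeasureTheory Filter

variable {ι : Type*} [Fintype ι] [DecidableEq ι]

lemma log_small (a b : ℝ) {ε : ℝ} (hε : 0 < ε) : ∀ᶠ x : ℝ in atTop, a + b * Real.log x ≤ x ^ ε := by
  have h1 : (fun _ : ℝ => a) =o[atTop] fun x : ℝ => x ^ ε :=
    Asymptotics.isLittleO_const_left.2 (Or.inr
      (tendsto_norm_atTop_atTop.comp (tendsto_rpow_atTop hε)))
  have h2 := (isLittleO_log_rpow_atTop hε).const_mul_left b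
  filter_upwards [(h1.add h2).bound one_pos, eventually_gt_atTop 0] with x hx hx0
  rw [one_mul, Real.norm_of_nonneg (Real.rpow_pos_of_pos hx0 _).le] at hx
  exact (le_abs_self _).trans hx

lemma close_prob (n : ℕ) {K : Finset ι} (hK : K.card = n + 2) {P : ℕ} (hP : 0 < P)
    {r L : ℝ} (hr : 0 ≤ r) (hr1 : r ≤ 1) (hL : 0 < L) :
    (cube ι).real {θ | L ≤ CC K n P r θ}
      ≤ (P : ℝ) ^ (n + 2) * (1 + C2 n * (1 + Real.log P)) / L := by
  have hS : ∀ x y : ι → ℕ, MeasurableSet {θ : ι → ℝ | |F K (n + 2) x θ - F K (n + 2) y θ| ≤ r} :=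
    fun x y => (isClosed_le (by fun_prop) continuous_const).measurableSet
  have e1 : ∀ θ, CC K n P r θ = ∑ x ∈ box K P, ∑ y ∈ box K P,
      {θ : ι → ℝ | |F K (n + 2) x θ - F K (n + 2) y θ| ≤ r}.indicator (1 : (ι → ℝ) → ℝ) θ := by
    intro θ
    unfold CC
    refine Finset.sum_congr rfl fun x _ => Finset.sum_congr rfl fun y _ => ?_
    by_cases h : |F K (n + 2) x θ - F K (n + 2) y θ| ≤ r
    · rw [if_pos h, Set.indicator_of_mem (by exact h)]
      rfl
    · rw [if_neg h, Set.indicator_of_notMem (by exact h)]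
  have hint : ∀ x y : ι → ℕ, Integrable
      ({θ : ι → ℝ | |F K (n + 2) x θ - F K (n + 2) y θ| ≤ r}.indicator (1 : (ι → ℝ) → ℝ))
      (cube ι) := fun x y => (integrable_const (1:ℝ)).indicator (hS x y)
  have hI : ∫ θ, CC K n P r θ ∂(cube ι) = ∑ x ∈ box K P, ∑ y ∈ box K P,
      (cube ι).real {θ | |F K (n + 2) x θ - F K (n + 2) y θ| ≤ r} := by
    simp_rw [e1]
    rw [integral_finsetSum _ fun x _ => integrable_finsetSum _ fun y _ => hint x y]
    refine Finset.sum_congr rfl fun x _ => ?_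
    rw [integral_finsetSum _ fun y _ => hint x y]
    refine Finset.sum_congr rfl fun y _ => ?_
    rw [integral_indicator_one (hS x y)]
  have hnn : ∀ θ, 0 ≤ CC K n P r θ := by
    intro θ
    unfold CC
    refine Finset.sum_nonneg fun x _ => Finset.sum_nonneg fun y _ => ?_
    split_ifs <;> norm_num
  have hInt : Integrable (CC K n P r) (cube ι) := by
    have : CC K n P r = fun θ => ∑ x ∈ box K P, ∑ y ∈ box K P,
      {θ : ι → ℝ | |F K (n + 2) x θ - F K (n + 2) y θ| ≤ r}.indicator (1 : (ι → ℝ) → ℝ) θ :=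
      funext e1
    rw [this]
    exact integrable_finsetSum _ fun x _ => integrable_finsetSum _ fun y _ => hint x y
  have hmk := mul_meas_ge_le_integral_of_nonneg (Eventually.of_forall hnn) hInt L
  rw [hI] at hmk
  have := hmk.trans (close_exp n hK hP hr hr1)
  rw [le_div_iff₀ hL, mul_comm]
  exact this

lemma CC_meas (K : Finset ι) (n P : ℕ) (r : ℝ) : Measurable (CC K n P r) := by
  unfold CC
  refine Finset.measurable_sum _ fun x _ => Finset.measurable_sum _ fun y _ => ?_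
  exact Measurable.ite (isClosed_le (by fun_prop) continuous_const).measurableSet
    measurable_const measurable_const

lemma rr_le {κ : ℝ} (hκ : 0 ≤ κ) (j : ℕ) : (PP j : ℝ) ^ (-κ) ≤ 1 :=
  Real.rpow_le_one_of_one_le_of_nonpos (by exact_mod_cast PP_pos j) (by linarith)

lemma close_ae (n : ℕ) {K : Finset ι} (hK : K.card = n + 2) {κ ε : ℝ} (hκ : 0 ≤ κ) (hε : 0 < ε) :
    ∀ᵐ θ ∂(cube ι), ∀ᶠ j in atTop,
      CC K n (PP j) ((PP j : ℝ) ^ (-κ)) θ ≤ (PP j : ℝ) ^ ε * (PP j : ℝ) ^ (n + 2) := by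
  have hb := bc (fun j => {θ : ι → ℝ | (PP j : ℝ) ^ ε * (PP j : ℝ) ^ (n + 2)
    ≤ CC K n (PP j) ((PP j : ℝ) ^ (-κ)) θ}) 1 (δ := ε / 2) (by linarith) ?_
  · filter_upwards [hb] with θ hθ
    filter_upwards [hθ] with j hj
    exact (not_le.1 hj).le
  · filter_upwards [PP_tendsto.eventually (log_small (1 + C2 n) (C2 n) (half_pos hε))] with j hj
    have hP := PP_pos' j
    have h1 := close_prob n hK (PP_pos j) (r := (PP j : ℝ) ^ (-κ))
      (L := (PP j : ℝ) ^ ε * (PP j : ℝ) ^ (n + 2)) (Real.rpow_pos_of_pos hP _).le (rr_le hκ j)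
      (by positivity)
    rw [← ofReal_measureReal (measure_ne_top _ _)]
    refine ENNReal.ofReal_le_ofReal (h1.trans ?_)
    rw [one_mul]
    have e : (PP j : ℝ) ^ ε = (PP j : ℝ) ^ (ε / 2) * (PP j : ℝ) ^ (ε / 2) := by
      rw [← Real.rpow_add hP]; congr 1; ring
    have h2 : 0 < (PP j : ℝ) ^ (ε / 2) := Real.rpow_pos_of_pos hP _
    rw [Real.rpow_neg hP.le, e, div_le_iff₀ (by positivity)]
    have h3 : 1 + C2 n * (1 + Real.log (PP j)) ≤ (PP j : ℝ) ^ (ε / 2) := by
      refine le_trans (le_of_eq ?_) hj; ring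
    calc (PP j : ℝ) ^ (n + 2) * (1 + C2 n * (1 + Real.log (PP j)))
        ≤ (PP j : ℝ) ^ (n + 2) * (PP j : ℝ) ^ (ε / 2) :=
          mul_le_mul_of_nonneg_left h3 (by positivity)
      _ = _ := by field_simp

theorem Cl_start (n : ℕ) {K : Finset ι} (hK : K.card = n + 2) {o : ι} (ho : o ∉ K) {E κ e : ℝ}
    (hE : 2 ^ (n + 2) * ((n : ℝ) + 3) ≤ E) (hκ : 0 ≤ κ) (he : e < 1 - κ) :
    Cl n E κ (insert o K) e := by
  set ε : ℝ := (1 - κ - e) / 2 with hε
  have hε0 : 0 < ε := by rw [hε]; linarith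
  have hE1 : 1 ≤ E := by
    refine le_trans ?_ hE
    have h1 : (1:ℝ) ≤ 2 ^ (n + 2) := one_le_pow₀ (by norm_num)
    have h2 : (0:ℝ) ≤ n := by positivity
    nlinarith
  have hC3 := C3_pos n hE1
  set A : ℕ → Set (ι → ℝ) := fun j => {θ | (∀ l, θ l ∈ Set.Icc (0:ℝ) 1) ∧
    CC K n (PP j) ((PP j : ℝ) ^ (-κ)) θ ≤ (PP j : ℝ) ^ ε * (PP j : ℝ) ^ (n + 2) ∧
    ENNReal.ofReal ((PP j : ℝ) ^ ((n : ℝ) + 2 - e)) < volume (BadS n E κ (insert o K) j θ)} with hA
  have hAm : ∀ j, MeasurableSet (A j) := by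
    intro j
    refine cube_meas.inter (MeasurableSet.inter ?_ ?_)
    · exact measurableSet_le (CC_meas _ _ _ _) measurable_const
    · exact measurableSet_lt measurable_const (Bad_vol_measurable _ _ _ _ _ _)
  have hbc := bc A (2 * C3 n E) (δ := ε) hε0 ?_
  · filter_upwards [close_ae n hK hκ hε0, hbc, ae_cube (ι := ι)] with θ h1 h2 h3
    filter_upwards [h1, h2] with j h4 h5
    by_contra hcon
    push Not at hcon
    exact h5 ⟨h3, h4, hcon⟩
  · filter_upwards [PP_tendsto.eventually (log_small (1 + Real.log ((n + 2) * 2 ^ (n + 2))) 1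
      (by linarith : 0 < ε + κ))] with j hj
    refine slice (hAm j) o fun θ => ?_
    set S : Set ℝ := {t | Function.update θ o t ∈ A j} with hS
    rcases S.eq_empty_or_nonempty with hemp | ⟨s0, hs0⟩
    · rw [hemp]; simp
    have hP := PP_pos' j
    have hr0 : 0 < (PP j : ℝ) ^ (-κ) := Real.rpow_pos_of_pos hP _
    have hθ : ∀ i ∈ K, θ i ∈ Set.Icc (0:ℝ) 1 := by
      intro i hi
      have hi' : i ≠ o := fun h => ho (by rw [← h]; exact hi)
      have := hs0.1 i
      rwa [Function.update_of_ne hi'] at this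
    have hCC : CC K n (PP j) ((PP j : ℝ) ^ (-κ)) θ ≤ (PP j : ℝ) ^ ε * (PP j : ℝ) ^ (n + 2) := by
      have := hs0.2.1
      unfold CC at this ⊢
      simpa only [F_update_not ho] using this
    have hcard : (insert o K).card = n + 3 := by
      rw [Finset.card_insert_of_notMem ho, hK]
    have hL0 : 0 < (PP j : ℝ) ^ ((n : ℝ) + 2 - e) := Real.rpow_pos_of_pos hP _
    have hst := stage0 n hK ho (PP_ge j) hθ (T1 := 2 ^ (n + 2) * ((n : ℝ) + 3) * (PP j : ℝ) ^ (n + 2))
      (T2 := E * (PP j : ℝ) ^ (n + 2)) (B := E) (r := (PP j : ℝ) ^ (-κ)) (G := (PP j : ℝ) ^ ε)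
      (L := (PP j : ℝ) ^ ((n : ℝ) + 2 - e))
      (mul_le_mul_of_nonneg_right hE (by positivity)) hE1 hr0 (rr_le hκ j) hL0
      (fun x hx => by
        have := (F_bounds n hK (fun i => mem_box (PP_pos j) hx i) hθ).2
        rw [mul_pow] at this ⊢
        nlinarith)
      (fun x hx => by
        have h1 := (F_bounds n hK (fun i => mem_box (PP_pos j) hx i) hθ).1
        have h2 : E ≤ E ^ (n + 2) := by
          calc E = E ^ 1 := (pow_one _).symm
            _ ≤ E ^ (n + 2) := pow_le_pow_right₀ hE1 (by omega)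
        have h3 : E * (PP j : ℝ) ^ (n + 2) ≤ E ^ (n + 2) * (PP j : ℝ) ^ (n + 2) :=
          mul_le_mul_of_nonneg_right h2 (by positivity)
        rw [mul_pow]
        linarith) hCC
    have hsub : S ⊆ {s | s ∈ Set.Icc (0:ℝ) 1 ∧ (PP j : ℝ) ^ ((n : ℝ) + 2 - e) ≤
        volume.real (Bad (insert o K) n (PP j) ((PP j : ℝ) ^ (-κ))
          (2 ^ (n + 2) * ((n : ℝ) + 3) * (PP j : ℝ) ^ (n + 2))
          (E * (PP j : ℝ) ^ (n + 2)) (Function.update θ o s))} := by
      intro s hs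
      have hs1 : s ∈ Set.Icc (0:ℝ) 1 := by
        have := hs.1 o
        rwa [Function.update_self] at this
      refine ⟨hs1, ?_⟩
      have h1 := hs.2.2
      unfold BadS at h1
      rw [hcard] at h1
      push_cast at h1
      have hfin : volume (Bad (insert o K) n (PP j) ((PP j : ℝ) ^ (-κ))
          (2 ^ (n + 2) * ((n : ℝ) + 3) * (PP j : ℝ) ^ (n + 2))
          (E * (PP j : ℝ) ^ (n + 2)) (Function.update θ o s)) ≠ ⊤ :=
        measure_ne_top_of_subset (Bad_subset _ _ _ _ _ _ _) measure_Icc_lt_top.ne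
      exact (ENNReal.ofReal_le_iff_le_toReal hfin).1 h1.le
    have hmono := measureReal_mono (μ := volume.restrict (Set.Icc (0:ℝ) 1)) hsub
    rw [← ofReal_measureReal (measure_ne_top _ _)]
    refine ENNReal.ofReal_le_ofReal (hmono.trans (hst.trans ?_))
    have hNN : 1 + Real.log (NN n (PP j)) ≤ (PP j : ℝ) ^ (ε + κ) := by
      refine le_trans (le_of_eq ?_) hj
      unfold NN
      push_cast
      rw [Real.log_mul (by positivity) hP.ne']
      ring
    have e1 : (PP j : ℝ) ^ ε / (PP j : ℝ) ^ (-κ) = (PP j : ℝ) ^ (ε + κ) := by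
      rw [← Real.rpow_sub hP]; congr 1; ring
    rw [e1, div_le_iff₀ hL0]
    have e2 : (PP j : ℝ) ^ (n + 1) = (PP j : ℝ) ^ ((n : ℝ) + 1) := by
      rw [← Real.rpow_natCast]; push_cast; rfl
    calc C3 n E * (PP j : ℝ) ^ (n + 1) * ((PP j : ℝ) ^ (ε + κ) + (1 + Real.log (NN n (PP j))))
        ≤ C3 n E * (PP j : ℝ) ^ (n + 1) * ((PP j : ℝ) ^ (ε + κ) + (PP j : ℝ) ^ (ε + κ)) := by
          gcongr
      _ = 2 * C3 n E * ((PP j : ℝ) ^ ((n : ℝ) + 1) * (PP j : ℝ) ^ (ε + κ)) := by rw [e2]; ring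
      _ = 2 * C3 n E * ((PP j : ℝ) ^ (-ε) * (PP j : ℝ) ^ ((n : ℝ) + 2 - e)) := by
          rw [← Real.rpow_add hP, ← Real.rpow_add hP]
          congr 2
          rw [hε]
          ring
      _ = _ := by ring

end Pool.Agent.X100.WS
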