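import Pool.Agent.X100.WS.Elem

/-! Close pairs for sums of shifted powers, on average over the shifts. -/

namespace Pool.Agent.X100.WS

open Finset MeasureTheory

variable {ι : Type*} [Fintype ι] [DecidableEq ι]

/-- The box of summation variables: `P ≤ x i < 2P` for `i ∈ K`, and `x i = P` otherwise. -/
def box (K : Finset ι) (P : ℕ) : Finset (ι → ℕ) :=
  Fintype.piFinset fun i => if i ∈ K then Finset.Ico P (2 * P) else {P}

lemma mem_box {K : Finset ι} {P : ℕ} (hP : 0 < P) {x : ι → ℕ} (hx : x ∈ box K P) (i : ι) :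
    P ≤ x i ∧ x i < 2 * P := by
  have := Fintype.mem_piFinset.1 hx i
  split_ifs at this with h
  · exact Finset.mem_Ico.1 this
  · rw [Finset.mem_singleton] at this; omega

lemma box_ext {K : Finset ι} {P : ℕ} {x y : ι → ℕ} (hx : x ∈ box K P) (hy : y ∈ box K P)
    (h : ∀ i ∈ K, x i = y i) : x = y := by
  ext i
  by_cases hi : i ∈ K
  · exact h i hi
  · have h1 := Fintype.mem_piFinset.1 hx i
    have h2 := Fintype.mem_piFinset.1 hy i
    rw [if_neg hi, Finset.mem_singleton] at h1 h2
    rw [h1, h2]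

lemma card_box (K : Finset ι) (P : ℕ) : (box K P).card = P ^ K.card := by
  rw [box, Fintype.card_piFinset]
  have : ∀ i, (if i ∈ K then Finset.Ico P (2 * P) else {P} : Finset ℕ).card
      = if i ∈ K then P else 1 := by
    intro i
    split_ifs
    · simp; omega
    · simp
  simp_rw [this]
  rw [Finset.prod_ite_mem]
  simp

/-- The sum of shifted `k`-th powers over the index set `K`. -/
def F (K : Finset ι) (k : ℕ) (x : ι → ℕ) (θ : ι → ℝ) : ℝ := ∑ i ∈ K, ((x i : ℝ) + θ i) ^ k

lemma F_update {K : Finset ι} {k : ℕ} {x : ι → ℕ} {θ : ι → ℝ} {i : ι} (hi : i ∈ K) (t : ℝ) :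
    F K k x (Function.update θ i t) = ((x i : ℝ) + t) ^ k + F (K.erase i) k x θ := by
  unfold F
  rw [← Finset.add_sum_erase K _ hi]
  congr 1
  · simp
  · refine Finset.sum_congr rfl fun j hj => ?_
    rw [Function.update_of_ne (Finset.ne_of_mem_erase hj)]

lemma F_update_not {K : Finset ι} {k : ℕ} {x : ι → ℕ} {θ : ι → ℝ} {i : ι} (hi : i ∉ K) (t : ℝ) :
    F K k x (Function.update θ i t) = F K k x θ := by
  unfold F
  refine Finset.sum_congr rfl fun j hj => ?_
  rw [Function.update_of_ne (fun h => hi (by rw [← h]; exact hj))]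

@[fun_prop]
lemma F_continuous (K : Finset ι) (k : ℕ) (x : ι → ℕ) : Continuous (F K k x) := by
  unfold F
  fun_prop

/-- The uniform measure on the unit cube. -/
noncomputable def cube (ι : Type*) [Fintype ι] : Measure (ι → ℝ) :=
  Measure.pi fun _ => (volume : Measure ℝ).restrict (Set.Icc 0 1)

instance unitIsProb : IsProbabilityMeasure ((volume : Measure ℝ).restrict (Set.Icc 0 1)) :=
  ⟨by simp⟩

instance cubeIsProb (ι : Type*) [Fintype ι] : IsProbabilityMeasure (cube ι) := by
  unfold cube; infer_instance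

lemma ae_cube : ∀ᵐ θ ∂(cube ι), ∀ i, θ i ∈ Set.Icc (0:ℝ) 1 := by
  rw [ae_all_iff]
  intro i
  have h := (Measure.quasiMeasurePreserving_eval
    (μ := fun _ : ι => (volume : Measure ℝ).restrict (Set.Icc 0 1)) i)
  have h2 : ∀ᵐ t ∂((volume : Measure ℝ).restrict (Set.Icc 0 1)), t ∈ Set.Icc (0:ℝ) 1 :=
    ae_restrict_mem measurableSet_Icc
  exact h.ae h2

/-- Slicing along one coordinate. -/
lemma slice {S : Set (ι → ℝ)} (hS : MeasurableSet S) (i : ι) {M : ENNReal}
    (h : ∀ θ : ι → ℝ, (volume : Measure ℝ).restrict (Set.Icc 0 1)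
      {t | Function.update θ i t ∈ S} ≤ M) : cube ι S ≤ M := by
  have hm : Measurable (S.indicator (1 : (ι → ℝ) → ENNReal)) :=
    measurable_one.indicator hS
  have e1 : cube ι S = ∫⁻ θ, S.indicator 1 θ ∂(cube ι) := (lintegral_indicator_one hS).symm
  rw [e1]
  unfold cube
  rw [lintegral_eq_lmarginal_univ (fun _ => (0:ℝ)), lmarginal_erase' _ hm (Finset.mem_univ i)]
  refine (lmarginal_mono (g := fun _ => M) ?_ _).trans ?_
  · intro θ
    have e2 : ∀ t : ℝ, S.indicator (1 : (ι → ℝ) → ENNReal) (Function.update θ i t)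
        = {t | Function.update θ i t ∈ S}.indicator (1 : ℝ → ENNReal) t := by
      intro t
      by_cases ht : Function.update θ i t ∈ S
      · simp [ht]
      · simp [ht]
    simp only [e2]
    rw [lintegral_indicator_one]
    · exact h θ
    · exact (measurable_update θ) hS
  · rw [lmarginal]
    simp

end Pool.Agent.X100.WS
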