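import Mathlib

/-! Elementary inequalities for powers. -/

namespace Pool.Agent.X100.WS

open Finset

lemma pow_sub_ge (n : ℕ) {a b P : ℝ} (hP : 0 ≤ P) (hb : P ≤ b) (hab : b ≤ a) :
    (a - b) * P ^ n ≤ a ^ (n + 1) - b ^ (n + 1) := by
  have hb0 : 0 ≤ b := hP.trans hb
  have h1 : P ^ n ≤ a ^ n := pow_le_pow_left₀ hP (hb.trans hab) n
  have h2 : b ^ n ≤ a ^ n := pow_le_pow_left₀ hb0 hab n
  have h3 : (a - b) * P ^ n ≤ (a - b) * a ^ n :=
    mul_le_mul_of_nonneg_left h1 (by linarith)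
  have h4 : b * b ^ n ≤ b * a ^ n := mul_le_mul_of_nonneg_left h2 hb0
  have e1 : a ^ (n + 1) = a * a ^ n := by ring
  have e2 : b ^ (n + 1) = b * b ^ n := by ring
  nlinarith

lemma pow_sub_le (n : ℕ) {a b : ℝ} (hb : 0 ≤ b) (hab : b ≤ a) :
    a ^ (n + 1) - b ^ (n + 1) ≤ (n + 1) * (a - b) * a ^ n := by
  induction n with
  | zero => simp
  | succ n ih =>
    have ha : 0 ≤ a := hb.trans hab
    have h2 : b ^ (n + 1) ≤ a ^ (n + 1) := pow_le_pow_left₀ hb hab _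
    have e : a ^ (n + 1 + 1) - b ^ (n + 1 + 1)
        = a * (a ^ (n + 1) - b ^ (n + 1)) + (a - b) * b ^ (n + 1) := by ring
    rw [e]
    have h3 : a * (a ^ (n + 1) - b ^ (n + 1)) ≤ a * ((n + 1) * (a - b) * a ^ n) :=
      mul_le_mul_of_nonneg_left ih ha
    have h4 : (a - b) * b ^ (n + 1) ≤ (a - b) * a ^ (n + 1) :=
      mul_le_mul_of_nonneg_left h2 (by linarith)
    have e2 : a * (((n:ℝ) + 1) * (a - b) * a ^ n) + (a - b) * a ^ (n + 1)
        = (((n + 1 : ℕ) : ℝ) + 1) * (a - b) * a ^ (n + 1) := by push_cast; ring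
    linarith

lemma diff_incr (n : ℕ) {a b s P : ℝ} (hP : 0 ≤ P) (hb : P ≤ b) (hab : b ≤ a) (hs : 0 ≤ s) :
    (a - b) * s * P ^ n ≤ (a + s) ^ (n + 2) - (b + s) ^ (n + 2) - (a ^ (n + 2) - b ^ (n + 2)) := by
  have hb0 : 0 ≤ b := hP.trans hb
  have ha0 : 0 ≤ a := hb0.trans hab
  induction n with
  | zero =>
    have h0 : 0 ≤ (a - b) * s := mul_nonneg (by linarith) hs
    have e : (a + s) ^ (0 + 2) - (b + s) ^ (0 + 2) - (a ^ (0 + 2) - b ^ (0 + 2))
        = 2 * ((a - b) * s) := by ring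
    rw [e, pow_zero, mul_one]
    linarith
  | succ n ih =>
    set D := (a + s) ^ (n + 2) - (b + s) ^ (n + 2) - (a ^ (n + 2) - b ^ (n + 2)) with hD
    have e : (a + s) ^ (n + 1 + 2) - (b + s) ^ (n + 1 + 2) - (a ^ (n + 1 + 2) - b ^ (n + 1 + 2))
        = b * D + (a - b) * ((a + s) ^ (n + 2) - a ^ (n + 2))
          + s * ((a + s) ^ (n + 2) - (b + s) ^ (n + 2)) := by
      rw [hD]; ring
    rw [e]
    have h1 : 0 ≤ (a + s) ^ (n + 2) - a ^ (n + 2) :=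
      sub_nonneg.2 (pow_le_pow_left₀ ha0 (by linarith) _)
    have h2 : 0 ≤ (a + s) ^ (n + 2) - (b + s) ^ (n + 2) :=
      sub_nonneg.2 (pow_le_pow_left₀ (by linarith) (by linarith) _)
    have h3 : 0 ≤ (a - b) * ((a + s) ^ (n + 2) - a ^ (n + 2)) := mul_nonneg (by linarith) h1
    have h4 : 0 ≤ s * ((a + s) ^ (n + 2) - (b + s) ^ (n + 2)) := mul_nonneg hs h2
    have h5 : 0 ≤ (a - b) * s * P ^ n := by
      have := pow_nonneg hP n
      have : 0 ≤ a - b := by linarith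
      positivity
    have h6 : P * ((a - b) * s * P ^ n) ≤ b * D := mul_le_mul hb ih h5 hb0
    have e2 : P * ((a - b) * s * P ^ n) = (a - b) * s * P ^ (n + 1) := by ring
    linarith

/-- Points `x + θ` with `k`-th powers in an interval of length `2 R P^(k-1)`. -/
lemma count_sep (n : ℕ) {P : ℕ} (hP : 0 < P) {θ R y : ℝ} (hθ : 0 ≤ θ) (hR : 0 ≤ R)
    (S : Finset ℕ) (hS : ∀ x ∈ S, P ≤ x)
    (h : ∀ x ∈ S, |((x : ℝ) + θ) ^ (n + 1) - y| ≤ R * (P : ℝ) ^ n) :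
    (S.card : ℝ) ≤ 2 * R + 1 := by
  rcases S.eq_empty_or_nonempty with rfl | hne
  · simp; positivity
  set a := S.min' hne
  set b := S.max' hne
  have ha : a ∈ S := S.min'_mem hne
  have hb : b ∈ S := S.max'_mem hne
  have hab : a ≤ b := S.min'_le _ hb
  have hsub : S ⊆ Finset.Icc a b := fun x hx =>
    Finset.mem_Icc.2 ⟨S.min'_le _ hx, S.le_max' _ hx⟩
  have hcard : S.card ≤ b + 1 - a := by
    simpa using Finset.card_le_card hsub
  have hcard' : (S.card : ℝ) ≤ (b : ℝ) - a + 1 := by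
    have h1 : S.card + a ≤ b + 1 := by omega
    have h2 : ((S.card + a : ℕ) : ℝ) ≤ ((b + 1 : ℕ) : ℝ) := by exact_mod_cast h1
    push_cast at h2
    linarith
  have hP0 : (0:ℝ) < P := by exact_mod_cast hP
  have h1 := abs_le.1 (h a ha)
  have h2 := abs_le.1 (h b hb)
  have hPa : (P : ℝ) ≤ (a : ℝ) + θ := by
    have : (P : ℝ) ≤ a := by exact_mod_cast hS a ha
    linarith
  have h3 := pow_sub_ge n (a := (b : ℝ) + θ) (b := (a : ℝ) + θ) hP0.le hPa
    (by have : (a : ℝ) ≤ b := by exact_mod_cast hab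
        linarith)
  have h4 : ((b : ℝ) - a) * (P : ℝ) ^ n ≤ (2 * R) * (P : ℝ) ^ n := by
    have : ((b : ℝ) + θ - (a + θ)) * (P : ℝ) ^ n = ((b : ℝ) - a) * (P : ℝ) ^ n := by ring
    nlinarith [h1.1, h2.2]
  have h5 : (b : ℝ) - a ≤ 2 * R := le_of_mul_le_mul_right h4 (by positivity)
  linarith

end Pool.Agent.X100.WS
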