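import Pool.Agent.X100.WS.Pair

/-! The expected number of close pairs. -/

namespace Pool.Agent.X100.WS

open Finset MeasureTheory

lemma sum_harm {β : Type*} (S : Finset β) (g : β → ℕ) (N C : ℕ)
    (hg : ∀ b ∈ S, 1 ≤ g b ∧ g b ≤ N)
    (hC : ∀ v, (S.filter fun b => g b = v).card ≤ C) :
    ∑ b ∈ S, (1 : ℝ) / g b ≤ C * (1 + Real.log N) := by
  have h1 : ∑ b ∈ S, (1 : ℝ) / g b
      = ∑ v ∈ Finset.Icc 1 N, ∑ b ∈ S with g b = v, (1 : ℝ) / g b :=
    (Finset.sum_fiberwise_of_maps_to (fun b hb => Finset.mem_Icc.2 (hg b hb)) _).symm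
  rw [h1]
  have h2 : ∀ v ∈ Finset.Icc 1 N, ∑ b ∈ S with g b = v, (1 : ℝ) / g b ≤ C * ((v : ℝ))⁻¹ := by
    intro v _
    have h3 : ∑ b ∈ S with g b = v, (1 : ℝ) / g b = ∑ b ∈ S with g b = v, ((v : ℝ))⁻¹ := by
      refine Finset.sum_congr rfl fun b hb => ?_
      rw [(Finset.mem_filter.1 hb).2, one_div]
    rw [h3, Finset.sum_const, nsmul_eq_mul]
    exact mul_le_mul_of_nonneg_right (by exact_mod_cast hC v) (by positivity)
  refine (Finset.sum_le_sum h2).trans ?_
  rw [← Finset.mul_sum]
  apply mul_le_mul_of_nonneg_left _ (by positivity)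
  have h4 : ∑ v ∈ Finset.Icc 1 N, ((v : ℝ))⁻¹ = (harmonic N : ℝ) := by
    rw [harmonic_eq_sum_Icc]
    push_cast
    rfl
  rw [h4]
  exact harmonic_le_one_add_log N

variable {ι : Type*} [Fintype ι] [DecidableEq ι]

/-- The constant in the expected number of close pairs. -/
noncomputable def C2 (n : ℕ) : ℝ := (n + 2) * (2 * (2 * C1 n + 1) * 2)

lemma C2_pos (n : ℕ) : 0 < C2 n := by
  have := C1_pos n
  unfold C2
  positivity

open Classical in
lemma pair_le (n : ℕ) {K : Finset ι} (hK : K.card = n + 2) {P : ℕ} (hP : 0 < P)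
    {x y : ι → ℕ} (hx : x ∈ box K P) (hy : y ∈ box K P) (hxy : x ≠ y)
    {r : ℝ} (hr : 0 ≤ r) (hr1 : r ≤ 1) :
    (cube ι).real {θ | |F K (n + 2) x θ - F K (n + 2) y θ| ≤ r}
      ≤ ∑ i ∈ K, if x i ≠ y i ∧ Good K n P x y then
        2 * r / (|(x i : ℝ) - y i| * (P : ℝ) ^ n) else 0 := by
  have hnn : ∀ i ∈ K, (0:ℝ) ≤ if x i ≠ y i ∧ Good K n P x y then
        2 * r / (|(x i : ℝ) - y i| * (P : ℝ) ^ n) else 0 := by
    intro i _
    split_ifs
    · positivity
    · exact le_rfl
  obtain ⟨i, hi, hne⟩ : ∃ i ∈ K, x i ≠ y i := by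
    by_contra hcon
    push Not at hcon
    exact hxy (box_ext hx hy hcon)
  by_cases hG : Good K n P x y
  · have h1 := pair_slice n hP hi (mem_box hP hx i).1 (mem_box hP hy i).1 hne hr
    have h2 : (cube ι).real {θ | |F K (n + 2) x θ - F K (n + 2) y θ| ≤ r}
        ≤ 2 * r / (|(x i : ℝ) - y i| * (P : ℝ) ^ n) :=
      ENNReal.toReal_le_of_le_ofReal (by positivity) h1
    refine h2.trans ?_
    have h3 := Finset.single_le_sum hnn hi
    rwa [if_pos ⟨hne, hG⟩] at h3
  · have h1 : cube ι {θ | |F K (n + 2) x θ - F K (n + 2) y θ| ≤ r} = 0 := by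
      refine measure_mono_null ?_ (ae_iff.1 (ae_cube (ι := ι)))
      intro θ hθ hcon
      exact hG (good_of_close n hK hP (fun j => mem_box hP hx j) (fun j => mem_box hP hy j)
        hcon hr1 hθ)
    rw [Measure.real, h1]
    simp only [ENNReal.toReal_zero]
    exact Finset.sum_nonneg hnn

open Classical in
theorem close_exp (n : ℕ) {K : Finset ι} (hK : K.card = n + 2) {P : ℕ} (hP : 0 < P)
    {r : ℝ} (hr : 0 ≤ r) (hr1 : r ≤ 1) :
    ∑ x ∈ box K P, ∑ y ∈ box K P,
      (cube ι).real {θ | |F K (n + 2) x θ - F K (n + 2) y θ| ≤ r}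
      ≤ (P : ℝ) ^ (n + 2) * (1 + C2 n * (1 + Real.log P)) := by
  have hlog : 0 ≤ Real.log P := Real.log_nonneg (by exact_mod_cast hP)
  have hC1 := C1_pos n
  have hP0 : (0:ℝ) < P := by exact_mod_cast hP
  have key : ∀ x ∈ box K P, ∑ y ∈ box K P,
      (cube ι).real {θ | |F K (n + 2) x θ - F K (n + 2) y θ| ≤ r}
      ≤ 1 + C2 n * (1 + Real.log P) := by
    intro x hx
    rw [← Finset.add_sum_erase _ _ hx]
    apply add_le_add
    · exact measureReal_le_one
    have h1 : ∑ y ∈ (box K P).erase x,
        (cube ι).real {θ | |F K (n + 2) x θ - F K (n + 2) y θ| ≤ r}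
        ≤ ∑ y ∈ (box K P), ∑ i ∈ K, if x i ≠ y i ∧ Good K n P x y then
        2 * r / (|(x i : ℝ) - y i| * (P : ℝ) ^ n) else 0 := by
      refine (Finset.sum_le_sum fun y hy => pair_le n hK hP hx (Finset.mem_of_mem_erase hy)
        (Finset.ne_of_mem_erase hy).symm hr hr1).trans ?_
      refine Finset.sum_le_sum_of_subset_of_nonneg (Finset.erase_subset _ _) fun y _ _ => ?_
      refine Finset.sum_nonneg fun i _ => ?_
      split_ifs
      · positivity
      · exact le_rfl
    refine h1.trans ?_
    rw [Finset.sum_comm]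
    have h2 : ∀ i ∈ K, (∑ y ∈ (box K P), if x i ≠ y i ∧ Good K n P x y then
        2 * r / (|(x i : ℝ) - y i| * (P : ℝ) ^ n) else 0)
        ≤ 2 * (2 * C1 n + 1) * 2 * (1 + Real.log P) := by
      intro i hi
      have h3 : (∑ y ∈ (box K P), if x i ≠ y i ∧ Good K n P x y then
          2 * r / (|(x i : ℝ) - y i| * (P : ℝ) ^ n) else 0)
          = ∑ v ∈ Finset.Ico P (2 * P), ∑ y ∈ box K P with y i = v,
            if x i ≠ y i ∧ Good K n P x y then
          2 * r / (|(x i : ℝ) - y i| * (P : ℝ) ^ n) else 0 :=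
        (Finset.sum_fiberwise_of_maps_to
          (fun y hy => Finset.mem_Ico.2 (mem_box hP hy i)) _).symm
      rw [h3]
      have h4 : ∀ v ∈ Finset.Ico P (2 * P), (∑ y ∈ box K P with y i = v,
            if x i ≠ y i ∧ Good K n P x y then
          2 * r / (|(x i : ℝ) - y i| * (P : ℝ) ^ n) else 0)
          ≤ if v ≠ x i then 2 * (2 * C1 n + 1) * (1 / |(x i : ℝ) - v|) else 0 := by
        intro v _
        by_cases hv : v = x i
        · rw [if_neg (by simpa using hv)]
          apply le_of_eq
          refine Finset.sum_eq_zero fun y hy => ?_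
          rw [if_neg]
          rintro ⟨h5, -⟩
          exact h5 (by rw [(Finset.mem_filter.1 hy).2, hv])
        · rw [if_pos hv]
          have h5 : (∑ y ∈ box K P with y i = v, if x i ≠ y i ∧ Good K n P x y then
              2 * r / (|(x i : ℝ) - y i| * (P : ℝ) ^ n) else 0)
              ≤ ∑ y ∈ (box K P).filter (fun y : ι → ℕ => y i = v ∧ Good K n P x y),
                2 * r / (|(x i : ℝ) - v| * (P : ℝ) ^ n) := by
            rw [← Finset.filter_filter, Finset.sum_filter (fun y : ι → ℕ => Good K n P x y)]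
            refine Finset.sum_le_sum fun y hy => ?_
            rw [(Finset.mem_filter.1 hy).2]
            by_cases hG : Good K n P x y
            · rw [if_pos hG, if_pos ⟨fun h => hv h.symm, hG⟩]
            · rw [if_neg hG, if_neg (fun h => hG h.2)]
          refine h5.trans ?_
          rw [Finset.sum_const, nsmul_eq_mul]
          have h6 := count_good n hK hP x hi v
          have hd : 0 < |(x i : ℝ) - v| := by
            rw [abs_pos, sub_ne_zero]
            exact fun h => hv (by exact_mod_cast h.symm)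
          calc _ ≤ ((P : ℝ) ^ n * (2 * C1 n + 1)) * (2 * r / (|(x i : ℝ) - v| * (P : ℝ) ^ n)) :=
                mul_le_mul_of_nonneg_right h6 (by positivity)
            _ = r * (2 * (2 * C1 n + 1) * (1 / |(x i : ℝ) - v|)) := by
                field_simp
            _ ≤ 1 * (2 * (2 * C1 n + 1) * (1 / |(x i : ℝ) - v|)) :=
                mul_le_mul_of_nonneg_right hr1 (by positivity)
            _ = _ := one_mul _
      refine (Finset.sum_le_sum h4).trans ?_
      rw [← Finset.sum_filter, ← Finset.mul_sum]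
      have h7 : ∑ v ∈ (Finset.Ico P (2 * P)).filter (fun v => v ≠ x i), 1 / |(x i : ℝ) - v|
          ≤ (2 : ℕ) * (1 + Real.log P) := by
        have hxi := mem_box hP hx i
        have h8 : ∀ v ∈ (Finset.Ico P (2 * P)).filter (fun v => v ≠ x i),
            1 / |(x i : ℝ) - v| = 1 / (((x i - v) + (v - x i) : ℕ) : ℝ) := by
          intro v _
          congr 1
          rcases le_total v (x i) with h | h
          · rw [abs_of_nonneg (sub_nonneg.2 (by exact_mod_cast h))]
            rw [Nat.sub_eq_zero_of_le h, Nat.add_zero, Nat.cast_sub h]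
          · rw [abs_of_nonpos (sub_nonpos.2 (by exact_mod_cast h))]
            rw [Nat.sub_eq_zero_of_le h, Nat.zero_add, Nat.cast_sub h]
            ring
        rw [Finset.sum_congr rfl h8]
        refine sum_harm _ (fun v => (x i - v) + (v - x i)) P 2 ?_ ?_
        · intro v hv
          rw [Finset.mem_filter, Finset.mem_Ico] at hv
          omega
        · intro w
          refine (Finset.card_le_card (t := {x i + w, x i - w}) ?_).trans Finset.card_le_two
          intro v hv
          rw [Finset.mem_filter, Finset.mem_filter, Finset.mem_Ico] at hv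
          rw [Finset.mem_insert, Finset.mem_singleton]
          omega
      calc _ ≤ 2 * (2 * C1 n + 1) * ((2 : ℕ) * (1 + Real.log P)) :=
            mul_le_mul_of_nonneg_left h7 (by positivity)
        _ = _ := by push_cast; ring
    refine (Finset.sum_le_sum h2).trans ?_
    rw [Finset.sum_const, hK, nsmul_eq_mul]
    unfold C2
    push_cast
    apply le_of_eq
    ring
  refine (Finset.sum_le_sum key).trans ?_
  rw [Finset.sum_const, card_box, hK, nsmul_eq_mul]
  push_cast
  exact le_rfl

end Pool.Agent.X100.WS
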