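import Pool.Agent.X100.WS.Root

/-! Second moment over one shift. -/

namespace Pool.Agent.X100.WS

open Finset MeasureTheory intervalIntegral

variable {β : Type*}

/-- The smoothed counting function. -/
noncomputable def cnt (n : ℕ) (d : ℝ) (Y : Finset β) (c : β → ℝ) (t s : ℝ) : ℝ :=
  ∑ y ∈ Y, chi d (root n (t - c y) - s)

lemma cnt_continuous (n : ℕ) (d : ℝ) (Y : Finset β) (c : β → ℝ) (M : ℝ) :
    Continuous (Function.uncurry fun s t : ℝ => (cnt n d Y c t s - M) ^ 2) := by
  unfold cnt Function.uncurry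
  fun_prop

lemma cnt_continuous_left (n : ℕ) (d : ℝ) (Y : Finset β) (c : β → ℝ) (s : ℝ) :
    Continuous fun t => cnt n d Y c t s := by
  unfold cnt
  fun_prop

lemma inner_var (n : ℕ) (d : ℝ) (Y : Finset β) (c : β → ℝ) (t : ℝ) :
    ∫ s in (0:ℝ)..1, (cnt n d Y c t s - Y.card * mass d) ^ 2
      = ∑ x ∈ Y, ∑ y ∈ Y, (phi d (root n (t - c x) - root n (t - c y)) - mass d ^ 2) := by
  have e1 : ∀ s : ℝ, (cnt n d Y c t s - Y.card * mass d) ^ 2
      = (∑ x ∈ Y, ∑ y ∈ Y, chi d (root n (t - c x) - s) * chi d (root n (t - c y) - s))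
        - (∑ x ∈ Y, 2 * Y.card * mass d * chi d (root n (t - c x) - s))
        + (Y.card * mass d) ^ 2 := by
    intro s
    unfold cnt
    rw [← Finset.sum_mul_sum, ← Finset.mul_sum]
    ring
  simp_rw [e1]
  have hc1 : ∀ x ∈ Y, ∀ y ∈ Y, IntervalIntegrable (fun s =>
      chi d (root n (t - c x) - s) * chi d (root n (t - c y) - s)) volume 0 1 := fun x _ y _ =>
    Continuous.intervalIntegrable (by fun_prop) _ _
  have hc2 : ∀ x ∈ Y, IntervalIntegrable (fun s =>
      ∑ y ∈ Y, chi d (root n (t - c x) - s) * chi d (root n (t - c y) - s)) volume 0 1 :=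
    fun x _ => Continuous.intervalIntegrable (by fun_prop) _ _
  have hc3 : ∀ x ∈ Y, IntervalIntegrable (fun s =>
      2 * Y.card * mass d * chi d (root n (t - c x) - s)) volume 0 1 :=
    fun x _ => Continuous.intervalIntegrable (by fun_prop) _ _
  rw [intervalIntegral.integral_add, intervalIntegral.integral_sub,
    intervalIntegral.integral_finsetSum hc2, intervalIntegral.integral_finsetSum hc3]
  · have e2 : ∀ x ∈ Y, (∫ s in (0:ℝ)..1,
        ∑ y ∈ Y, chi d (root n (t - c x) - s) * chi d (root n (t - c y) - s))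
        = ∑ y ∈ Y, phi d (root n (t - c x) - root n (t - c y)) := by
      intro x hx
      rw [intervalIntegral.integral_finsetSum (hc1 x hx)]
      exact Finset.sum_congr rfl fun y _ => pair_integral d _ _
    rw [Finset.sum_congr rfl e2]
    have e3 : ∀ x ∈ Y, (∫ s in (0:ℝ)..1, 2 * Y.card * mass d * chi d (root n (t - c x) - s))
        = 2 * Y.card * mass d * mass d := by
      intro x _
      rw [intervalIntegral.integral_const_mul, chi_integral]
    rw [Finset.sum_congr rfl e3]
    simp only [Finset.sum_sub_distrib, Finset.sum_const, intervalIntegral.integral_const,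
      nsmul_eq_mul, smul_eq_mul]
    ring
  · exact Continuous.intervalIntegrable (by fun_prop) _ _
  · exact Continuous.intervalIntegrable (by fun_prop) _ _
  · exact Continuous.intervalIntegrable (by fun_prop) _ _
  · exact Continuous.intervalIntegrable (by fun_prop) _ _

lemma total_var (n : ℕ) (d : ℝ) (Y : Finset β) (c : β → ℝ) {T1 T2 : ℝ} (hT : T1 ≤ T2) :
    ∫ s in (0:ℝ)..1, ∫ t in T1..T2, (cnt n d Y c t s - Y.card * mass d) ^ 2
      = ∑ x ∈ Y, ∑ y ∈ Y, ((∫ t in T1..T2, phi d (root n (t - c x) - root n (t - c y)))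
        - mass d ^ 2 * (T2 - T1)) := by
  have hswap : (∫ s in (0:ℝ)..1, ∫ t in T1..T2, (cnt n d Y c t s - Y.card * mass d) ^ 2)
      = ∫ t in T1..T2, ∫ s in (0:ℝ)..1, (cnt n d Y c t s - Y.card * mass d) ^ 2 := by
    refine intervalIntegral_intervalIntegral_swap ?_
    have hc := cnt_continuous n d Y c (Y.card * mass d)
    refine (hc.continuousOn.integrableOn_compact
      ((isCompact_Icc (a := (0:ℝ)) (b := 1)).prod (isCompact_Icc (a := T1) (b := T2)))).mono_set ?_
    rw [Set.uIoc_of_le zero_le_one, Set.uIoc_of_le hT]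
    exact Set.prod_mono Set.Ioc_subset_Icc_self Set.Ioc_subset_Icc_self
  rw [hswap]
  simp_rw [inner_var]
  have hc1 : ∀ x ∈ Y, ∀ y ∈ Y, IntervalIntegrable (fun t =>
      phi d (root n (t - c x) - root n (t - c y)) - mass d ^ 2) volume T1 T2 := fun x _ y _ =>
    Continuous.intervalIntegrable (by fun_prop) _ _
  have hc2 : ∀ x ∈ Y, IntervalIntegrable (fun t =>
      ∑ y ∈ Y, (phi d (root n (t - c x) - root n (t - c y)) - mass d ^ 2)) volume T1 T2 :=
    fun x _ => Continuous.intervalIntegrable (by fun_prop) _ _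
  rw [intervalIntegral.integral_finsetSum hc2]
  refine Finset.sum_congr rfl fun x hx => ?_
  rw [intervalIntegral.integral_finsetSum (hc1 x hx)]
  refine Finset.sum_congr rfl fun y _ => ?_
  rw [intervalIntegral.integral_sub, intervalIntegral.integral_const, smul_eq_mul]
  · ring
  · exact Continuous.intervalIntegrable (by fun_prop) _ _
  · exact Continuous.intervalIntegrable (by fun_prop) _ _

/-- Chebyshev: few shifts `s` leave a large set of `t` uncovered. -/
lemma cheb (n : ℕ) {d : ℝ} (hd : 0 < d) (hd1 : d ≤ 1) {Y : Finset β} (hY : Y.Nonempty)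
    (c : β → ℝ) {T1 T2 V L : ℝ} (hT : T1 ≤ T2) (hL : 0 < L)
    (hV : ∫ s in (0:ℝ)..1, ∫ t in T1..T2, (cnt n d Y c t s - Y.card * mass d) ^ 2 ≤ V) :
    (volume.restrict (Set.Icc (0:ℝ) 1)).real
      {s | L ≤ volume.real {t | t ∈ Set.Icc T1 T2 ∧ cnt n d Y c t s = 0}}
      ≤ V / ((Y.card * mass d) ^ 2 * L) := by
  have hm : 0 < mass d := lt_of_lt_of_le (by positivity) (mass_ge hd hd1)
  have hY0 : (0:ℝ) < Y.card := by exact_mod_cast Finset.card_pos.2 hY
  set M : ℝ := Y.card * mass d with hM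
  have hM0 : 0 < M := by positivity
  set W : ℝ → ℝ := fun s => ∫ t in T1..T2, (cnt n d Y c t s - M) ^ 2 with hW
  have hcs := cnt_continuous n d Y c M
  have hWc : Continuous W := by
    apply intervalIntegral.continuous_parametric_intervalIntegral_of_continuous'
    exact hcs
  have hWnn : ∀ s, 0 ≤ W s := fun s =>
    intervalIntegral.integral_nonneg hT fun t _ => sq_nonneg _
  have hsub : ∀ s, L ≤ volume.real {t | t ∈ Set.Icc T1 T2 ∧ cnt n d Y c t s = 0} →
      M ^ 2 * L ≤ W s := by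
    intro s hs
    set Z : Set ℝ := {t | t ∈ Set.Icc T1 T2 ∧ cnt n d Y c t s = 0} with hZ
    have hcs' := cnt_continuous_left n d Y c s
    have hZm : MeasurableSet Z :=
      measurableSet_Icc.inter (isClosed_eq hcs' continuous_const).measurableSet
    have hZsub : Z ⊆ Set.Icc T1 T2 := fun t ht => ht.1
    have hint : IntegrableOn (fun t => (cnt n d Y c t s - M) ^ 2) (Set.Icc T1 T2) :=
      ((hcs'.sub continuous_const).pow 2).continuousOn.integrableOn_Icc
    have h1 : W s = ∫ t in Set.Icc T1 T2, (cnt n d Y c t s - M) ^ 2 := by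
      rw [hW]
      dsimp only
      rw [intervalIntegral.integral_of_le hT, integral_Icc_eq_integral_Ioc]
    have h2 : ∫ t in Z, (cnt n d Y c t s - M) ^ 2 ≤ ∫ t in Set.Icc T1 T2, (cnt n d Y c t s - M) ^ 2 :=
      setIntegral_mono_set hint (Filter.Eventually.of_forall fun t => sq_nonneg _)
        (LE.le.eventuallyLE hZsub)
    have h3 : ∫ t in Z, (cnt n d Y c t s - M) ^ 2 = ∫ t in Z, M ^ 2 := by
      refine setIntegral_congr_fun hZm fun t ht => ?_
      rw [ht.2]
      ring
    rw [h1]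
    refine le_trans ?_ h2
    rw [h3, setIntegral_const, smul_eq_mul, mul_comm]
    exact mul_le_mul_of_nonneg_right hs (by positivity)
  have hmarkov := mul_meas_ge_le_integral_of_nonneg
    (μ := volume.restrict (Set.Icc (0:ℝ) 1)) (f := W) (Filter.Eventually.of_forall hWnn)
    hWc.continuousOn.integrableOn_Icc (M ^ 2 * L)
  have hint : ∫ s, W s ∂(volume.restrict (Set.Icc (0:ℝ) 1))
      = ∫ s in (0:ℝ)..1, ∫ t in T1..T2, (cnt n d Y c t s - M) ^ 2 := by
    rw [intervalIntegral.integral_of_le zero_le_one, integral_Icc_eq_integral_Ioc]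
  rw [hint] at hmarkov
  have hmono : (volume.restrict (Set.Icc (0:ℝ) 1)).real
      {s | L ≤ volume.real {t | t ∈ Set.Icc T1 T2 ∧ cnt n d Y c t s = 0}}
      ≤ (volume.restrict (Set.Icc (0:ℝ) 1)).real {s | M ^ 2 * L ≤ W s} :=
    measureReal_mono (fun s hs => hsub s hs)
  rw [le_div_iff₀ (by positivity)]
  calc _ ≤ (volume.restrict (Set.Icc (0:ℝ) 1)).real {s | M ^ 2 * L ≤ W s} * (M ^ 2 * L) :=
        mul_le_mul_of_nonneg_right hmono (by positivity)
    _ = (M ^ 2 * L) * (volume.restrict (Set.Icc (0:ℝ) 1)).real {s | M ^ 2 * L ≤ W s} := mul_comm _ _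
    _ ≤ _ := hmarkov
    _ ≤ V := hV

/-- The constant in the choice of the width. -/
noncomputable def kap (n : ℕ) (B : ℝ) : ℝ := (n + 2) * (2 * B) ^ (n + 1)

/-- A positive count produces a representation. -/
lemma repr_of_cnt (n : ℕ) {Y : Finset β} {c : β → ℝ} {T1 T2 P B r : ℝ} (hP : 2 ≤ P) (hB : 1 ≤ B)
    (hr : 0 < r) (hr1 : r ≤ 1)
    (h1 : ∀ y ∈ Y, (2 * P) ^ (n + 2) ≤ T1 - c y) (h3 : ∀ y ∈ Y, T2 - c y ≤ (B * P) ^ (n + 2))
    {t s : ℝ} (ht : t ∈ Set.Icc T1 T2) (hs : s ∈ Set.Icc (0:ℝ) 1)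
    (hne : cnt n (r / (kap n B * P ^ (n + 1))) Y c t s ≠ 0) :
    ∃ y ∈ Y, ∃ m : ℕ, P ≤ (m : ℝ) ∧ |c y + ((m : ℝ) + s) ^ (n + 2) - t| ≤ r := by
  have hkap : 0 < kap n B := by unfold kap; positivity
  have hkap1 : 1 ≤ kap n B * P ^ (n + 1) := by
    have h4 : (1:ℝ) ≤ (2 * B) ^ (n + 1) := one_le_pow₀ (by linarith)
    have h5 : (1:ℝ) ≤ P ^ (n + 1) := one_le_pow₀ (by linarith)
    have h6 : (1:ℝ) ≤ n + 2 := by have : (0:ℝ) ≤ n := by positivity
                                  linarith
    unfold kap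
    have h7 : (1:ℝ) ≤ ((n:ℝ) + 2) * (2 * B) ^ (n + 1) := by nlinarith
    nlinarith
  set d := r / (kap n B * P ^ (n + 1)) with hd
  have hd0 : 0 < d := by positivity
  have hd1 : d ≤ 1 := by
    rw [hd, div_le_one (by positivity)]
    linarith
  obtain ⟨y, hy, hyne⟩ := Finset.exists_ne_zero_of_sum_ne_zero hne
  have h4 : nrm (root n (t - c y) - s) < d := by
    by_contra hcon
    exact hyne (chi_eq_zero hd0 (not_lt.1 hcon))
  obtain ⟨m, hm⟩ := exists_int_of_nrm_lt h4
  have hb1 : (2 * P) ^ (n + 2) ≤ t - c y := by linarith [h1 y hy, ht.1]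
  have hb2 : t - c y ≤ (B * P) ^ (n + 2) := by linarith [h3 y hy, ht.2]
  have hpos : 0 ≤ t - c y := (by positivity : (0:ℝ) ≤ (2 * P) ^ (n + 2)).trans hb1
  set u := root n (t - c y) with hu
  have hu1 : 2 * P ≤ u := root_ge n hpos (by positivity) hb1
  have hu2 : u ≤ B * P := root_le n hpos (by positivity) hb2
  have hm' := abs_lt.1 hm
  have hmlow : P - 1 < (m : ℝ) := by
    have := hs.2
    linarith [hm'.2]
  have hm0 : 0 ≤ m := by
    have : (-1 : ℝ) < m := by linarith
    have : (-1 : ℤ) < m := by exact_mod_cast this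
    omega
  obtain ⟨m', rfl⟩ := Int.eq_ofNat_of_zero_le hm0
  refine ⟨y, hy, m', ?_, ?_⟩
  · have : 2 * P - 2 < (m' : ℝ) := by
      have h7 := hs.2
      have h8 : (((m' : ℕ) : ℤ) : ℝ) = (m' : ℝ) := by push_cast; rfl
      rw [h8] at hm'
      linarith [hm'.2]
    linarith
  · have h8 : (((m' : ℕ) : ℤ) : ℝ) = (m' : ℝ) := by push_cast; rfl
    rw [h8] at hm'
    set v := (m' : ℝ) + s with hv
    have hv0 : 0 ≤ v := add_nonneg (by positivity) hs.1
    have huv : |u - v| < d := by
      rw [abs_lt]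
      constructor
      · linarith [hm'.1]
      · linarith [hm'.2]
    have huv' := abs_lt.1 huv
    have e : c y + v ^ (n + 2) - t = v ^ (n + 2) - u ^ (n + 2) := by
      rw [hu, root_pow n hpos]; ring
    rw [e]
    have hvB : v ≤ 2 * B * P := by nlinarith
    have huB : u ≤ 2 * B * P := by nlinarith
    have hbound : (n + 2) * d * (2 * B * P) ^ (n + 1) = r := by
      rw [hd]
      unfold kap
      rw [mul_pow (2 * B) P]
      field_simp
    have hu0 : 0 ≤ u := by linarith
    rcases le_total u v with h | h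
    · rw [abs_of_nonneg (sub_nonneg.2 (pow_le_pow_left₀ hu0 h _))]
      have h9 := pow_sub_le (n + 1) hu0 h
      refine h9.trans (le_trans ?_ hbound.le)
      push_cast
      have h10 : v ^ (n + 1) ≤ (2 * B * P) ^ (n + 1) := pow_le_pow_left₀ hv0 hvB _
      have h11 : ((n : ℝ) + 1 + 1) * (v - u) ≤ (n + 2) * d := by
        have : ((n : ℝ) + 1 + 1) = n + 2 := by ring
        rw [this]
        exact mul_le_mul_of_nonneg_left (by linarith) (by positivity)
      exact mul_le_mul h11 h10 (by positivity) (by positivity)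
    · rw [abs_of_nonpos (sub_nonpos.2 (pow_le_pow_left₀ hv0 h _)), neg_sub]
      have h9 := pow_sub_le (n + 1) hv0 h
      refine h9.trans (le_trans ?_ hbound.le)
      push_cast
      have h10 : u ^ (n + 1) ≤ (2 * B * P) ^ (n + 1) := pow_le_pow_left₀ hu0 huB _
      have h11 : ((n : ℝ) + 1 + 1) * (u - v) ≤ (n + 2) * d := by
        have : ((n : ℝ) + 1 + 1) = n + 2 := by ring
        rw [this]
        exact mul_le_mul_of_nonneg_left (by linarith) (by positivity)
      exact mul_le_mul h11 h10 (by positivity) (by positivity)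

end Pool.Agent.X100.WS
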