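import Pool.Agent.X100.WS.Exp
import Pool.Agent.X100.WS.Var

/-! Sums of reciprocals of gaps, and the variance bound. -/

namespace Pool.Agent.X100.WS

open Finset MeasureTheory

variable {ι : Type*} [Fintype ι] [DecidableEq ι]

omit [DecidableEq ι] [Fintype ι] in
lemma F_bounds (n : ℕ) {K : Finset ι} (hK : K.card = n + 2) {P : ℕ}
    {x : ι → ℕ} (hx : ∀ i, P ≤ x i ∧ x i < 2 * P) {θ : ι → ℝ}
    (hθ : ∀ i ∈ K, θ i ∈ Set.Icc (0:ℝ) 1) :
    0 ≤ F K (n + 2) x θ ∧ F K (n + 2) x θ ≤ (n + 2) * (2 * (P : ℝ)) ^ (n + 2) := by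
  unfold F
  constructor
  · refine Finset.sum_nonneg fun i hi => ?_
    have := (hθ i hi).1
    positivity
  · have h1 : ∀ i ∈ K, ((x i : ℝ) + θ i) ^ (n + 2) ≤ (2 * (P : ℝ)) ^ (n + 2) := by
      intro i hi
      have h3 : (x i : ℝ) + θ i ≤ 2 * P := by
        have : x i + 1 ≤ 2 * P := (hx i).2
        have : ((x i + 1 : ℕ) : ℝ) ≤ ((2 * P : ℕ) : ℝ) := by exact_mod_cast this
        push_cast at this
        linarith [(hθ i hi).2]
      exact pow_le_pow_left₀ (by have := (hθ i hi).1; positivity) h3 _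
    refine (Finset.sum_le_sum h1).trans ?_
    rw [Finset.sum_const, hK, nsmul_eq_mul]
    push_cast
    exact le_rfl

/-- The number of relevant scales. -/
def NN (n P : ℕ) : ℕ := (n + 2) * 2 ^ (n + 2) * P

open Classical in
lemma fiber_count (n : ℕ) {K : Finset ι} (hK : K.card = n + 2) {P : ℕ} (hP : 0 < P)
    {θ : ι → ℝ} (hθ : ∀ i ∈ K, θ i ∈ Set.Icc (0:ℝ) 1) (x : ι → ℕ) (v : ℕ) :
    ((((box K P).filter fun y : ι → ℕ =>
      (P : ℝ) ^ (n + 1) < |F K (n + 2) x θ - F K (n + 2) y θ|).filter fun y =>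
        ⌊|F K (n + 2) x θ - F K (n + 2) y θ| / (P : ℝ) ^ (n + 1)⌋₊ = v).card)
      ≤ 4 * P ^ (n + 1) := by
  have hP0 : (0:ℝ) < P := by exact_mod_cast hP
  have hR : 0 < (P : ℝ) ^ (n + 1) := by positivity
  obtain ⟨l, hl⟩ : K.Nonempty := by
    rw [← Finset.card_pos]; omega
  set T : Finset (ι → ℕ) := Fintype.piFinset fun j =>
    if j ∈ K.erase l then Finset.Ico P (2 * P) else {P} with hT
  have hTcard : T.card = P ^ (n + 1) := by
    rw [hT, Fintype.card_piFinset]
    have : ∀ j, (if j ∈ K.erase l then Finset.Ico P (2 * P) else {P} : Finset ℕ).card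
        = if j ∈ K.erase l then P else 1 := by
      intro j
      split_ifs <;> simp; omega
    simp_rw [this]
    rw [Finset.prod_ite_mem]
    rw [Finset.univ_inter, Finset.prod_const, Finset.card_erase_of_mem hl, hK]
    rfl
  set S := ((box K P).filter fun y : ι → ℕ =>
      (P : ℝ) ^ (n + 1) < |F K (n + 2) x θ - F K (n + 2) y θ|).filter fun y =>
        ⌊|F K (n + 2) x θ - F K (n + 2) y θ| / (P : ℝ) ^ (n + 1)⌋₊ = v with hS
  rw [← hTcard]
  refine Finset.card_le_mul_card_image_of_maps_to (f := fun y => Function.update y l P) ?_ 4 ?_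
  · intro y hy
    have hy' := (Finset.mem_filter.1 (Finset.mem_filter.1 hy).1).1
    rw [hT, Fintype.mem_piFinset]
    intro j
    by_cases hjl : j = l
    · subst hjl
      simp
    · simp only [Function.update_of_ne hjl]
      have h1 := Fintype.mem_piFinset.1 hy' j
      by_cases hjK : j ∈ K
      · simpa [hjl, hjK] using h1
      · simpa [hjl, hjK] using h1
  · intro z _
    set S' := S.filter fun y => Function.update y l P = z with hS'
    have hinj : Set.InjOn (fun y : ι → ℕ => y l) S' := by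
      intro y hy y' hy' hyy
      have h1 : Function.update y l P = z := (Finset.mem_filter.1 (Finset.mem_coe.1 hy)).2
      have h2 : Function.update y' l P = z := (Finset.mem_filter.1 (Finset.mem_coe.1 hy')).2
      ext j
      by_cases hj : j = l
      · rw [hj]; exact hyy
      · have h3 := congrFun (h1.trans h2.symm) j
        simpa [Function.update_of_ne hj] using h3
    rw [← Finset.card_image_of_injOn hinj]
    set I := S'.image fun y : ι → ℕ => y l with hI
    set a1 : ℝ := F K (n + 2) x θ + ((v : ℝ) + 1 / 2) * (P : ℝ) ^ (n + 1)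
      - F (K.erase l) (n + 2) z θ with ha1
    set a2 : ℝ := F K (n + 2) x θ - ((v : ℝ) + 1 / 2) * (P : ℝ) ^ (n + 1)
      - F (K.erase l) (n + 2) z θ with ha2
    have hcov : I ⊆ (I.filter fun w : ℕ => |((w : ℝ) + θ l) ^ (n + 1 + 1) - a1|
        ≤ (1 / 2) * (P : ℝ) ^ (n + 1)) ∪ (I.filter fun w : ℕ =>
        |((w : ℝ) + θ l) ^ (n + 1 + 1) - a2| ≤ (1 / 2) * (P : ℝ) ^ (n + 1)) := by
      intro w hw
      rw [Finset.mem_union, Finset.mem_filter, Finset.mem_filter]
      obtain ⟨y, hy, rfl⟩ := Finset.mem_image.1 hw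
      have h2 : Function.update y l P = z := (Finset.mem_filter.1 hy).2
      have h3 := (Finset.mem_filter.1 (Finset.mem_filter.1 hy).1).2
      have e1 : F K (n + 2) y θ = ((y l : ℝ) + θ l) ^ (n + 2) + F (K.erase l) (n + 2) z θ := by
        unfold F
        rw [← Finset.add_sum_erase K _ hl]
        congr 1
        refine Finset.sum_congr rfl fun j hj => ?_
        have hj' : j ≠ l := Finset.ne_of_mem_erase hj
        rw [← h2, Function.update_of_ne hj']
      have h4 := (Nat.floor_eq_iff (by positivity)).1 h3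
      rw [le_div_iff₀ hR, div_lt_iff₀ hR] at h4
      rcases le_total (F K (n + 2) x θ) (F K (n + 2) y θ) with h | h
      · left
        refine ⟨hw, ?_⟩
        rw [abs_of_nonpos (by linarith)] at h4
        rw [abs_le]
        rw [show n + 1 + 1 = n + 2 by ring, ha1]
        constructor <;> nlinarith [h4.1, h4.2]
      · right
        refine ⟨hw, ?_⟩
        rw [abs_of_nonneg (by linarith)] at h4
        rw [abs_le]
        rw [show n + 1 + 1 = n + 2 by ring, ha2]
        constructor <;> nlinarith [h4.1, h4.2]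
    have hIP : ∀ w ∈ I, P ≤ w := by
      intro w hw
      obtain ⟨y, hy, rfl⟩ := Finset.mem_image.1 hw
      exact (mem_box hP (Finset.mem_filter.1 (Finset.mem_filter.1
        (Finset.mem_filter.1 hy).1).1).1 l).1
    have hc : ∀ a : ℝ, (I.filter fun w : ℕ => |((w : ℝ) + θ l) ^ (n + 1 + 1) - a|
        ≤ (1 / 2) * (P : ℝ) ^ (n + 1)).card ≤ 2 := by
      intro a
      have := count_sep (n + 1) hP (hθ l hl).1 (R := 1 / 2) (y := a) (by norm_num)
        (I.filter fun w : ℕ => |((w : ℝ) + θ l) ^ (n + 1 + 1) - a|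
          ≤ (1 / 2) * (P : ℝ) ^ (n + 1))
        (fun w hw => hIP w (Finset.mem_filter.1 hw).1) (fun w hw => (Finset.mem_filter.1 hw).2)
      norm_num at this
      exact_mod_cast this
    calc I.card ≤ _ := Finset.card_le_card hcov
      _ ≤ _ := Finset.card_union_le _ _
      _ ≤ 2 + 2 := add_le_add (hc a1) (hc a2)
      _ = 4 := rfl

open Classical in
lemma sum_inv (n : ℕ) {K : Finset ι} (hK : K.card = n + 2) {P : ℕ} (hP : 0 < P)
    {θ : ι → ℝ} (hθ : ∀ i ∈ K, θ i ∈ Set.Icc (0:ℝ) 1) {x : ι → ℕ} (hx : x ∈ box K P) :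
    ∑ y ∈ (box K P).filter (fun y : ι → ℕ =>
      (P : ℝ) ^ (n + 1) < |F K (n + 2) x θ - F K (n + 2) y θ|),
      1 / |F K (n + 2) x θ - F K (n + 2) y θ| ≤ 4 * (1 + Real.log (NN n P)) := by
  have hP0 : (0:ℝ) < P := by exact_mod_cast hP
  set R : ℝ := (P : ℝ) ^ (n + 1) with hR
  have hR0 : 0 < R := by positivity
  set S := (box K P).filter (fun y : ι → ℕ => R < |F K (n + 2) x θ - F K (n + 2) y θ|) with hS
  set g : (ι → ℕ) → ℕ := fun y => ⌊|F K (n + 2) x θ - F K (n + 2) y θ| / R⌋₊ with hg
  have h1 := sum_harm S g (NN n P) (4 * P ^ (n + 1)) ?_ ?_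
  · have h2 : ∀ y ∈ S, 1 / |F K (n + 2) x θ - F K (n + 2) y θ| ≤ (1 / R) * (1 / g y) := by
      intro y hy
      have hy' := (Finset.mem_filter.1 hy).2
      have h3 : 1 ≤ g y := by
        rw [hg]
        apply Nat.le_floor
        rw [le_div_iff₀ hR0]
        push_cast
        linarith
      have h3' : (0:ℝ) < g y := by exact_mod_cast h3
      have h4 : (g y : ℝ) ≤ |F K (n + 2) x θ - F K (n + 2) y θ| / R :=
        Nat.floor_le (by positivity)
      rw [le_div_iff₀ hR0] at h4
      rw [one_div_mul_one_div]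
      exact one_div_le_one_div_of_le (by positivity) (by linarith)
    refine (Finset.sum_le_sum h2).trans ?_
    rw [← Finset.mul_sum]
    calc (1 / R) * ∑ y ∈ S, (1:ℝ) / g y
        ≤ (1 / R) * (((4 * P ^ (n + 1) : ℕ) : ℝ) * (1 + Real.log (NN n P))) :=
          mul_le_mul_of_nonneg_left h1 (by positivity)
      _ = _ := by
          push_cast
          rw [← hR]
          field_simp
  · intro y hy
    have hy' := (Finset.mem_filter.1 hy).2
    constructor
    · rw [hg]
      apply Nat.le_floor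
      rw [le_div_iff₀ hR0]
      push_cast
      linarith
    · have hb1 := F_bounds n hK (fun i => mem_box hP hx i) hθ
      have hb2 := F_bounds n hK (fun i => mem_box hP (Finset.mem_filter.1 hy).1 i) hθ
      have h5 : |F K (n + 2) x θ - F K (n + 2) y θ| ≤ (n + 2) * (2 * (P : ℝ)) ^ (n + 2) := by
        rw [abs_le]
        constructor <;> linarith [hb1.1, hb1.2, hb2.1, hb2.2]
      rw [hg]
      apply Nat.floor_le_of_le
      rw [div_le_iff₀ hR0]
      refine h5.trans (le_of_eq ?_)
      unfold NN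
      push_cast
      rw [hR]
      ring
  · intro v
    have := fiber_count n hK hP hθ x v
    convert this using 2

end Pool.Agent.X100.WS
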