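import Pool.Agent.X100.WS.Close

/-! The probability that two sums are close, and the number of relevant pairs. -/

namespace Pool.Agent.X100.WS

open Finset MeasureTheory

variable {ι : Type*} [Fintype ι] [DecidableEq ι]

lemma meas_mono {f : ℝ → ℝ} {c r : ℝ} (hc : 0 < c) (hr : 0 ≤ r)
    (h : ∀ s t, 0 ≤ s → s ≤ t → t ≤ 1 → c * (t - s) ≤ f t - f s) :
    volume.restrict (Set.Icc 0 1) {t : ℝ | |f t| ≤ r} ≤ ENNReal.ofReal (2 * r / c) := by
  rw [Measure.restrict_apply' measurableSet_Icc]
  refine (Real.volume_le_diam _).trans ?_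
  refine Metric.ediam_le fun s hs t ht => ?_
  obtain ⟨hs1, hs2⟩ := hs
  obtain ⟨ht1, ht2⟩ := ht
  rw [edist_dist]
  apply ENNReal.ofReal_le_ofReal
  rw [Real.dist_eq]
  have hs1a : |f s| ≤ r := hs1
  have ht1a : |f t| ≤ r := ht1
  have hs1' := abs_le.1 hs1a
  have ht1' := abs_le.1 ht1a
  rcases le_total s t with hst | hst
  · have := h s t hs2.1 hst ht2.2
    rw [abs_sub_comm, abs_of_nonneg (by linarith), le_div_iff₀ hc]
    nlinarith
  · have := h t s ht2.1 hst hs2.2
    rw [abs_of_nonneg (by linarith), le_div_iff₀ hc]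
    nlinarith

lemma pair_slice (n : ℕ) {K : Finset ι} {P : ℕ} (hP : 0 < P) {x y : ι → ℕ}
    {i : ι} (hi : i ∈ K) (hx : P ≤ x i) (hy : P ≤ y i) (hxy : x i ≠ y i) {r : ℝ} (hr : 0 ≤ r) :
    cube ι {θ | |F K (n + 2) x θ - F K (n + 2) y θ| ≤ r}
      ≤ ENNReal.ofReal (2 * r / (|(x i : ℝ) - y i| * (P : ℝ) ^ n)) := by
  have hP0 : (0:ℝ) < P := by exact_mod_cast hP
  have hx' : (P : ℝ) ≤ x i := by exact_mod_cast hx
  have hy' : (P : ℝ) ≤ y i := by exact_mod_cast hy
  have hne : (x i : ℝ) - y i ≠ 0 := by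
    intro h
    apply hxy
    have : (x i : ℝ) = y i := by linarith
    exact_mod_cast this
  have hpos : 0 < |(x i : ℝ) - y i| * (P : ℝ) ^ n := by positivity
  refine slice ?_ i fun θ => ?_
  · exact (isClosed_le (by fun_prop) continuous_const).measurableSet
  simp only [Set.mem_ofPred_eq, F_update hi]
  rcases lt_or_gt_of_ne hxy with hlt | hlt
  · have hlt' : (x i : ℝ) < y i := by exact_mod_cast hlt
    have e : ∀ t : ℝ, |((x i : ℝ) + t) ^ (n + 2) + F (K.erase i) (n + 2) x θ
        - (((y i : ℝ) + t) ^ (n + 2) + F (K.erase i) (n + 2) y θ)|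
        = |((y i : ℝ) + t) ^ (n + 2) - ((x i : ℝ) + t) ^ (n + 2)
          + (F (K.erase i) (n + 2) y θ - F (K.erase i) (n + 2) x θ)| := by
      intro t
      rw [← abs_neg]
      congr 1
      ring
    simp only [e]
    refine meas_mono hpos hr fun s t hs hst ht => ?_
    have := diff_incr n (a := (y i : ℝ) + s) (b := (x i : ℝ) + s) (s := t - s) (P := P) hP0.le
      (by linarith) (by linarith) (by linarith)
    rw [abs_of_neg (by linarith : (x i : ℝ) - y i < 0)]
    have e1 : (y i : ℝ) + s + (t - s) = y i + t := by ring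
    have e2 : (x i : ℝ) + s + (t - s) = x i + t := by ring
    rw [e1, e2] at this
    have e3 : -((x i : ℝ) - y i) * (P : ℝ) ^ n * (t - s)
      = ((y i : ℝ) + s - (x i + s)) * (t - s) * (P : ℝ) ^ n := by ring
    rw [e3]
    linarith
  · have hlt' : (y i : ℝ) < x i := by exact_mod_cast hlt
    have e : ∀ t : ℝ, |((x i : ℝ) + t) ^ (n + 2) + F (K.erase i) (n + 2) x θ
        - (((y i : ℝ) + t) ^ (n + 2) + F (K.erase i) (n + 2) y θ)|
        = |((x i : ℝ) + t) ^ (n + 2) - ((y i : ℝ) + t) ^ (n + 2)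
          + (F (K.erase i) (n + 2) x θ - F (K.erase i) (n + 2) y θ)| := by
      intro t
      congr 1
      ring
    simp only [e]
    refine meas_mono hpos hr fun s t hs hst ht => ?_
    have := diff_incr n (a := (x i : ℝ) + s) (b := (y i : ℝ) + s) (s := t - s) (P := P) hP0.le
      (by linarith) (by linarith) (by linarith)
    rw [abs_of_pos (by linarith : (0:ℝ) < (x i : ℝ) - y i)]
    have e1 : (y i : ℝ) + s + (t - s) = y i + t := by ring
    have e2 : (x i : ℝ) + s + (t - s) = x i + t := by ring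
    rw [e1, e2] at this
    have e3 : ((x i : ℝ) - y i) * (P : ℝ) ^ n * (t - s)
      = ((x i : ℝ) + s - (y i + s)) * (t - s) * (P : ℝ) ^ n := by ring
    rw [e3]
    linarith

/-- The constant in the range restriction. -/
noncomputable def C1 (n : ℕ) : ℝ := 1 + (n + 2) * ((n + 2) * 2 ^ (n + 1))

lemma C1_pos (n : ℕ) : 0 < C1 n := by unfold C1; positivity

omit [DecidableEq ι] in
lemma F_near (n : ℕ) {K : Finset ι} (hK : K.card = n + 2) {P : ℕ}
    {x : ι → ℕ} (hx : ∀ i, P ≤ x i ∧ x i < 2 * P) {θ : ι → ℝ} (hθ : ∀ i, θ i ∈ Set.Icc (0:ℝ) 1) :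
    0 ≤ F K (n + 2) x θ - F K (n + 2) x 0 ∧
      F K (n + 2) x θ - F K (n + 2) x 0 ≤ (C1 n - 1) * (P : ℝ) ^ (n + 1) := by
  have e : F K (n + 2) x θ - F K (n + 2) x 0
      = ∑ i ∈ K, (((x i : ℝ) + θ i) ^ (n + 2) - (x i : ℝ) ^ (n + 2)) := by
    unfold F
    rw [Finset.sum_sub_distrib]
    simp
  rw [e]
  constructor
  · refine Finset.sum_nonneg fun i _ => sub_nonneg.2 (pow_le_pow_left₀ (by positivity) ?_ _)
    have := (hθ i).1
    linarith
  · have h1 : ∀ i ∈ K, ((x i : ℝ) + θ i) ^ (n + 2) - (x i : ℝ) ^ (n + 2)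
        ≤ (n + 2) * 2 ^ (n + 1) * (P : ℝ) ^ (n + 1) := by
      intro i _
      have h2 := pow_sub_le (n + 1) (a := (x i : ℝ) + θ i) (b := x i) (by positivity)
        (by linarith [(hθ i).1])
      have h3 : (x i : ℝ) + θ i ≤ 2 * P := by
        have : x i + 1 ≤ 2 * P := (hx i).2
        have : ((x i + 1 : ℕ) : ℝ) ≤ ((2 * P : ℕ) : ℝ) := by exact_mod_cast this
        push_cast at this
        linarith [(hθ i).2]
      have h4 : ((x i : ℝ) + θ i) ^ (n + 1) ≤ (2 * (P:ℝ)) ^ (n + 1) :=
        pow_le_pow_left₀ (by have := (hθ i).1; positivity) h3 _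
      rw [mul_pow] at h4
      have h5 : (((n + 1 : ℕ) : ℝ) + 1) * ((x i : ℝ) + θ i - x i) ≤ (n + 2) := by
        push_cast
        have := (hθ i).2
        have h0 : (0:ℝ) ≤ (n:ℝ) := by positivity
        nlinarith
      calc ((x i : ℝ) + θ i) ^ (n + 2) - (x i : ℝ) ^ (n + 2)
          ≤ (((n + 1 : ℕ) : ℝ) + 1) * ((x i : ℝ) + θ i - x i) * ((x i : ℝ) + θ i) ^ (n + 1) := h2
        _ ≤ (n + 2) * (2 ^ (n + 1) * (P : ℝ) ^ (n + 1)) := by
            apply mul_le_mul h5 h4
            · have := (hθ i).1; positivity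
            · positivity
        _ = _ := by ring
    refine (Finset.sum_le_sum h1).trans ?_
    rw [Finset.sum_const, hK, nsmul_eq_mul]
    unfold C1
    push_cast
    apply le_of_eq
    ring

/-- Two sums that are close for some shifts are not far apart without shifts. -/
def Good (K : Finset ι) (n P : ℕ) (x y : ι → ℕ) : Prop :=
  |F K (n + 2) x 0 - F K (n + 2) y 0| ≤ C1 n * (P : ℝ) ^ (n + 1)

omit [DecidableEq ι] in
lemma good_of_close (n : ℕ) {K : Finset ι} (hK : K.card = n + 2) {P : ℕ} (hP : 0 < P)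
    {x y : ι → ℕ} (hx : ∀ i, P ≤ x i ∧ x i < 2 * P) (hy : ∀ i, P ≤ y i ∧ y i < 2 * P)
    {θ : ι → ℝ} (hθ : ∀ i, θ i ∈ Set.Icc (0:ℝ) 1) {r : ℝ} (hr : r ≤ 1)
    (h : |F K (n + 2) x θ - F K (n + 2) y θ| ≤ r) : Good K n P x y := by
  have h1 := F_near n hK hx hθ
  have h2 := F_near n hK hy hθ
  have h3 := abs_le.1 h
  have hP1 : (1:ℝ) ≤ (P : ℝ) ^ (n + 1) := one_le_pow₀ (by exact_mod_cast hP)
  unfold Good
  rw [abs_le]
  constructor <;> nlinarith [h1.1, h1.2, h2.1, h2.2, h3.1, h3.2]

open Classical in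
lemma count_good (n : ℕ) {K : Finset ι} (hK : K.card = n + 2) {P : ℕ} (hP : 0 < P)
    (x : ι → ℕ) {i : ι} (hi : i ∈ K) (v : ℕ) :
    (((box K P).filter fun y : ι → ℕ => y i = v ∧ Good K n P x y).card : ℝ)
      ≤ (P : ℝ) ^ n * (2 * C1 n + 1) := by
  classical
  obtain ⟨l, hl, hli⟩ : ∃ l ∈ K, l ≠ i := by
    have : 1 < K.card := by omega
    exact Finset.exists_mem_ne this i
  set T : Finset (ι → ℕ) := Fintype.piFinset fun j =>
    if j ∈ (K.erase i).erase l then Finset.Ico P (2 * P) else if j = i then {v} else {P} with hT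
  have hTcard : T.card = P ^ n := by
    rw [hT, Fintype.card_piFinset]
    have : ∀ j, (if j ∈ (K.erase i).erase l then Finset.Ico P (2 * P)
        else if j = i then {v} else {P} : Finset ℕ).card
        = if j ∈ (K.erase i).erase l then P else 1 := by
      intro j
      split_ifs <;> simp; omega
    simp_rw [this]
    rw [Finset.prod_ite_mem]
    rw [Finset.univ_inter, Finset.prod_const, Finset.card_erase_of_mem, Finset.card_erase_of_mem hi,
      hK]
    · rfl
    · exact Finset.mem_erase.2 ⟨hli, hl⟩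
  set S := (box K P).filter fun y : ι → ℕ => y i = v ∧ Good K n P x y with hS
  set M : ℕ := ⌊2 * C1 n + 1⌋₊ with hM
  have hmain : S.card ≤ M * T.card := by
    refine Finset.card_le_mul_card_image_of_maps_to (f := fun y => Function.update y l P) ?_ M ?_
    · intro y hy
      rw [hS, Finset.mem_filter] at hy
      rw [hT, Fintype.mem_piFinset]
      intro j
      by_cases hjl : j = l
      · subst hjl
        simp [hli]
      · simp only [Function.update_of_ne hjl]
        have h1 := Fintype.mem_piFinset.1 hy.1 j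
        by_cases hji : j = i
        · subst hji
          simp [hy.2.1]
        · by_cases hjK : j ∈ K
          · simpa [hjl, hji, hjK] using h1
          · simpa [hjl, hji, hjK] using h1
    · intro z _
      set S' := S.filter fun y => Function.update y l P = z with hS'
      have hinj : Set.InjOn (fun y : ι → ℕ => y l) S' := by
        intro y hy y' hy' hyy
        have h1 : Function.update y l P = z := (Finset.mem_filter.1 (Finset.mem_coe.1 hy)).2
        have h2 : Function.update y' l P = z := (Finset.mem_filter.1 (Finset.mem_coe.1 hy')).2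
        ext j
        by_cases hj : j = l
        · rw [hj]; exact hyy
        · have h3 := congrFun (h1.trans h2.symm) j
          simpa [Function.update_of_ne hj] using h3
      rw [← Finset.card_image_of_injOn hinj]
      apply Nat.le_floor
      set y0 : ℝ := F K (n + 2) x 0 - F (K.erase l) (n + 2) z 0 with hy0
      refine count_sep (n + 1) hP (θ := 0) (R := C1 n) (y := y0) le_rfl (C1_pos n).le _ ?_ ?_
      · intro w hw
        obtain ⟨y, hy, rfl⟩ := Finset.mem_image.1 hw
        have h1 := (Finset.mem_filter.1 (Finset.mem_filter.1 hy).1).1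
        exact (mem_box hP h1 l).1
      · intro w hw
        obtain ⟨y, hy, rfl⟩ := Finset.mem_image.1 hw
        have h1 := (Finset.mem_filter.1 (Finset.mem_filter.1 hy).1).2.2
        have h2 : Function.update y l P = z := (Finset.mem_filter.1 hy).2
        unfold Good at h1
        have e1 : F K (n + 2) y 0 = ((y l : ℝ) + 0) ^ (n + 2) + F (K.erase l) (n + 2) z 0 := by
          unfold F
          rw [← Finset.add_sum_erase K _ hl]
          congr 1
          refine Finset.sum_congr rfl fun j hj => ?_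
          have hj' : j ≠ l := Finset.ne_of_mem_erase hj
          rw [← h2, Function.update_of_ne hj']
        have e2 : ((y l : ℝ) + 0) ^ (n + 1 + 1) - y0 = F K (n + 2) y 0 - F K (n + 2) x 0 := by
          rw [e1, hy0]; ring
        rw [e2, abs_sub_comm]
        exact h1
  have hM' : (M : ℝ) ≤ 2 * C1 n + 1 := Nat.floor_le (by have := C1_pos n; positivity)
  have h2 : (S.card : ℝ) ≤ (M : ℝ) * (T.card : ℝ) := by exact_mod_cast hmain
  rw [hTcard] at h2
  push_cast at h2
  calc (S.card : ℝ) ≤ M * (P:ℝ) ^ n := h2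
    _ ≤ (2 * C1 n + 1) * (P : ℝ) ^ n := mul_le_mul_of_nonneg_right hM' (by positivity)
    _ = _ := by ring

end Pool.Agent.X100.WS
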