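import Mathlib

/-! A periodic tent function and its autocorrelation; integration by parts. -/

namespace Pool.Agent.X100.WS

open Finset MeasureTheory intervalIntegral

/-- Distance to the nearest integer. -/
noncomputable def nrm (y : ℝ) : ℝ := ‖(y : UnitAddCircle)‖

@[fun_prop]
lemma nrm_continuous : Continuous nrm :=
  continuous_norm.comp (AddCircle.continuous_mk' 1)

lemma nrm_nonneg (y : ℝ) : 0 ≤ nrm y := norm_nonneg _

lemma nrm_add_one (y : ℝ) : nrm (y + 1) = nrm y := by
  unfold nrm
  congr 1
  rw [AddCircle.coe_add]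
  simp

lemma nrm_eq (y : ℝ) : nrm y = |y - round y| := UnitAddCircle.norm_eq

lemma nrm_sub_le (x y : ℝ) : nrm (x - y) ≤ nrm x + nrm y := by
  unfold nrm
  rw [AddCircle.coe_sub]
  exact norm_sub_le _ _

lemma nrm_of_le {y : ℝ} (h : |y| ≤ 1 / 2) : nrm y = |y| := by
  have := (AddCircle.norm_coe_eq_abs_iff (p := (1:ℝ)) (x := y) one_ne_zero).2 (by simpa using h)
  exact this

lemma exists_int_of_nrm_lt {y d : ℝ} (h : nrm y < d) : ∃ m : ℤ, |y - m| < d :=
  ⟨round y, by rwa [← nrm_eq]⟩

/-- The periodic tent of height one and half-width `d`. -/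
noncomputable def chi (d y : ℝ) : ℝ := max 0 (1 - nrm y / d)

@[fun_prop]
lemma chi_continuous (d : ℝ) : Continuous (chi d) := by
  unfold chi
  fun_prop

lemma chi_nonneg (d y : ℝ) : 0 ≤ chi d y := le_max_left _ _

lemma chi_le_one {d : ℝ} (hd : 0 < d) (y : ℝ) : chi d y ≤ 1 := by
  unfold chi
  refine max_le zero_le_one ?_
  have : 0 ≤ nrm y / d := div_nonneg (nrm_nonneg y) hd.le
  linarith

lemma chi_periodic (d : ℝ) : Function.Periodic (chi d) 1 := fun y => by
  unfold chi; rw [nrm_add_one]

lemma chi_eq_zero {d y : ℝ} (hd : 0 < d) (h : d ≤ nrm y) : chi d y = 0 := by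
  unfold chi
  apply max_eq_left
  have : 1 ≤ nrm y / d := (one_le_div hd).2 h
  linarith

/-- The integral of the tent. -/
noncomputable def mass (d : ℝ) : ℝ := ∫ y in (0:ℝ)..1, chi d y

lemma mass_ge {d : ℝ} (hd : 0 < d) (hd1 : d ≤ 1) : d / 4 ≤ mass d := by
  have h1 : (∫ y in (0:ℝ)..(d/2), (1/2 : ℝ)) ≤ ∫ y in (0:ℝ)..(d/2), chi d y := by
    apply intervalIntegral.integral_mono_on (by linarith)
    · exact intervalIntegrable_const
    · exact (chi_continuous d).intervalIntegrable _ _
    · intro y hy
      unfold chi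
      refine le_max_of_le_right ?_
      have h2 : nrm y = |y| := nrm_of_le (by rw [abs_of_nonneg hy.1]; linarith [hy.2])
      rw [h2, abs_of_nonneg hy.1]
      have : y / d ≤ 1 / 2 := by
        rw [div_le_iff₀ hd]; linarith [hy.2]
      linarith
  have h2 : (∫ y in (0:ℝ)..(d/2), (1/2 : ℝ)) = d / 4 := by
    rw [intervalIntegral.integral_const]
    simp
    ring
  have h3 : (∫ y in (0:ℝ)..(d/2), chi d y) + (∫ y in (d/2)..(1:ℝ), chi d y) = mass d :=
    intervalIntegral.integral_add_adjacent_intervals
      ((chi_continuous d).intervalIntegrable _ _) ((chi_continuous d).intervalIntegrable _ _)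
  have h4 : 0 ≤ ∫ y in (d/2)..(1:ℝ), chi d y :=
    intervalIntegral.integral_nonneg (by linarith) fun y _ => chi_nonneg d y
  linarith

lemma mass_nonneg (d : ℝ) : 0 ≤ mass d :=
  intervalIntegral.integral_nonneg zero_le_one fun y _ => chi_nonneg d y

/-- The autocorrelation of the tent. -/
noncomputable def phi (d z : ℝ) : ℝ := ∫ s in (0:ℝ)..1, chi d (z + s) * chi d s

@[fun_prop]
lemma phi_continuous (d : ℝ) : Continuous (phi d) := by
  unfold phi
  apply intervalIntegral.continuous_parametric_intervalIntegral_of_continuous'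
  unfold Function.uncurry
  fun_prop

lemma phi_periodic (d : ℝ) : Function.Periodic (phi d) 1 := fun z => by
  unfold phi
  congr 1
  ext s
  rw [show z + 1 + s = z + s + 1 by ring, chi_periodic d]

lemma phi_nonneg (d z : ℝ) : 0 ≤ phi d z :=
  intervalIntegral.integral_nonneg zero_le_one
    fun s _ => mul_nonneg (chi_nonneg _ _) (chi_nonneg _ _)

lemma phi_le {d : ℝ} (hd : 0 < d) (z : ℝ) : phi d z ≤ mass d := by
  unfold phi mass
  apply intervalIntegral.integral_mono_on zero_le_one
  · exact Continuous.intervalIntegrable (by fun_prop) _ _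
  · exact Continuous.intervalIntegrable (by fun_prop) _ _
  · intro s _
    calc chi d (z + s) * chi d s ≤ 1 * chi d s :=
          mul_le_mul_of_nonneg_right (chi_le_one hd _) (chi_nonneg _ _)
      _ = _ := one_mul _

lemma phi_eq_zero {d z : ℝ} (hd : 0 < d) (h : 2 * d ≤ nrm z) : phi d z = 0 := by
  unfold phi
  have h0 : ∀ s : ℝ, chi d (z + s) * chi d s = 0 := by
    intro s
    by_cases h1 : d ≤ nrm s
    · rw [chi_eq_zero hd h1, mul_zero]
    · have h2 : d ≤ nrm (z + s) := by
        have := nrm_sub_le (z + s) s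
        rw [add_sub_cancel_right] at this
        push Not at h1
        linarith
      rw [chi_eq_zero hd h2, zero_mul]
  simp [h0]

lemma phi_integral (d : ℝ) : ∫ z in (0:ℝ)..1, phi d z = mass d ^ 2 := by
  unfold phi
  have h1 : (∫ z in (0:ℝ)..1, ∫ s in (0:ℝ)..1, chi d (z + s) * chi d s)
      = ∫ s in (0:ℝ)..1, ∫ z in (0:ℝ)..1, chi d (z + s) * chi d s := by
    refine intervalIntegral_intervalIntegral_swap ?_
    have hc : Continuous (Function.uncurry fun z s : ℝ => chi d (z + s) * chi d s) := by
      unfold Function.uncurry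
      fun_prop
    refine (hc.continuousOn.integrableOn_compact
      ((isCompact_Icc (a := (0:ℝ)) (b := 1)).prod (isCompact_Icc (a := (0:ℝ)) (b := 1)))).mono_set ?_
    rw [Set.uIoc_of_le zero_le_one]
    exact Set.prod_mono Set.Ioc_subset_Icc_self Set.Ioc_subset_Icc_self
  rw [h1]
  have h2 : ∀ s : ℝ, (∫ z in (0:ℝ)..1, chi d (z + s) * chi d s) = mass d * chi d s := by
    intro s
    rw [intervalIntegral.integral_mul_const]
    congr 1
    rw [intervalIntegral.integral_comp_add_right (fun z => chi d z) s]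
    unfold mass
    rw [show (0:ℝ) + s = s by ring, show (1:ℝ) + s = s + 1 by ring,
      (chi_periodic d).intervalIntegral_add_eq s 0, zero_add]
  simp_rw [h2]
  rw [intervalIntegral.integral_const_mul]
  unfold mass
  ring

lemma pair_integral (d u v : ℝ) :
    ∫ s in (0:ℝ)..1, chi d (u - s) * chi d (v - s) = phi d (u - v) := by
  have h1 := intervalIntegral.integral_comp_sub_left
    (fun s => chi d (u - v + s) * chi d s) v (a := 0) (b := 1)
  have h2 : ∀ s : ℝ, chi d (u - s) * chi d (v - s)
      = chi d (u - v + (v - s)) * chi d (v - s) := by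
    intro s
    rw [show u - v + (v - s) = u - s by ring]
  simp_rw [h2]
  rw [h1]
  have hper : Function.Periodic (fun s => chi d (u - v + s) * chi d s) 1 := fun s => by
    dsimp only
    rw [show u - v + (s + 1) = u - v + s + 1 by ring, chi_periodic d, chi_periodic d]
  have h3 := hper.intervalIntegral_add_eq (v - 1) 0
  rw [show v - 1 + 1 = v - 0 by ring] at h3
  rw [h3, zero_add]
  rfl

lemma chi_integral (d u : ℝ) : ∫ s in (0:ℝ)..1, chi d (u - s) = mass d := by
  have h1 := intervalIntegral.integral_comp_sub_left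
    (fun s => chi d s) u (a := 0) (b := 1)
  rw [h1]
  have h3 := (chi_periodic d).intervalIntegral_add_eq (u - 1) 0
  rw [show u - 1 + 1 = u - 0 by ring] at h3
  rw [h3, zero_add]
  rfl

/-- A primitive of `phi - mass^2`. -/
noncomputable def prim (d y : ℝ) : ℝ := ∫ z in (0:ℝ)..y, (phi d z - mass d ^ 2)

lemma prim_deriv (d y : ℝ) : HasDerivAt (prim d) (phi d y - mass d ^ 2) y := by
  have hc : Continuous fun z => phi d z - mass d ^ 2 := by fun_prop
  exact intervalIntegral.integral_hasDerivAt_right (hc.intervalIntegrable _ _)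
    (hc.stronglyMeasurableAtFilter _ _) hc.continuousAt

lemma prim_periodic (d : ℝ) : Function.Periodic (prim d) 1 := fun y => by
  have hc : Continuous fun z => phi d z - mass d ^ 2 := by fun_prop
  unfold prim
  rw [← intervalIntegral.integral_add_adjacent_intervals (hc.intervalIntegrable 0 y)
    (hc.intervalIntegrable y (y+1))]
  have hper : Function.Periodic (fun z => phi d z - mass d ^ 2) 1 := fun z => by
    dsimp only; rw [phi_periodic d]
  have h0 : ∫ z in (0:ℝ)..1, (phi d z - mass d ^ 2) = 0 := by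
    rw [intervalIntegral.integral_sub ((phi_continuous d).intervalIntegrable _ _)
      intervalIntegrable_const, phi_integral]
    simp
  rw [hper.intervalIntegral_add_eq y 0, zero_add, h0, add_zero]

lemma prim_abs (d y : ℝ) : |prim d y| ≤ mass d ^ 2 := by
  obtain ⟨z, hz, hzy⟩ := (prim_periodic d).exists_mem_Ico₀ one_pos y
  rw [hzy]
  unfold prim
  rw [intervalIntegral.integral_sub ((phi_continuous d).intervalIntegrable _ _)
      intervalIntegrable_const, intervalIntegral.integral_const]
  simp only [sub_zero, smul_eq_mul]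
  have h1 : 0 ≤ ∫ x in (0:ℝ)..z, phi d x :=
    intervalIntegral.integral_nonneg hz.1 fun _ _ => phi_nonneg _ _
  have h2 : (∫ x in (0:ℝ)..z, phi d x) + (∫ x in z..(1:ℝ), phi d x) = mass d ^ 2 := by
    rw [intervalIntegral.integral_add_adjacent_intervals
      ((phi_continuous d).intervalIntegrable _ _) ((phi_continuous d).intervalIntegrable _ _),
      phi_integral]
  have h3 : 0 ≤ ∫ x in z..(1:ℝ), phi d x :=
    intervalIntegral.integral_nonneg hz.2.le fun _ _ => phi_nonneg _ _
  have h4 : 0 ≤ mass d ^ 2 := by positivity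
  have h5 : z * mass d ^ 2 ≤ mass d ^ 2 := by nlinarith [hz.2]
  have h6 : 0 ≤ z * mass d ^ 2 := mul_nonneg hz.1 h4
  rw [abs_le]
  constructor <;> linarith

/-- Integration by parts. -/
lemma ibp {a b d R : ℝ} (hab : a ≤ b) {g g1 r r1 : ℝ → ℝ}
    (hg : ∀ t ∈ Set.Icc a b, HasDerivAt g (g1 t) t)
    (hr : ∀ t ∈ Set.Icc a b, HasDerivAt r (r1 t) t)
    (h1 : ∀ t ∈ Set.Icc a b, g1 t * r t = 1)
    (hr1 : ∀ t ∈ Set.Icc a b, r1 t ≤ 0) (hR : ∀ t ∈ Set.Icc a b, |r t| ≤ R)
    (hc : ContinuousOn r1 (Set.Icc a b)) :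
    ∫ t in a..b, phi d (g t) ≤ mass d ^ 2 * (b - a) + 4 * mass d ^ 2 * R := by
  have huc : Set.uIcc a b = Set.Icc a b := Set.uIcc_of_le hab
  have hgc : ContinuousOn g (Set.Icc a b) := fun t ht => (hg t ht).continuousAt.continuousWithinAt
  have hphi : ContinuousOn (fun t => phi d (g t)) (Set.Icc a b) :=
    (phi_continuous d).comp_continuousOn hgc
  have hprimc : Continuous (prim d) :=
    continuous_iff_continuousAt.2 fun y => (prim_deriv d y).continuousAt
  have hprim : ContinuousOn (fun t => prim d (g t)) (Set.Icc a b) :=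
    hprimc.comp_continuousOn hgc
  have hI1 : IntervalIntegrable (fun t => phi d (g t)) volume a b :=
    (hphi.mono huc.subset).intervalIntegrable
  have hI2 : IntervalIntegrable (fun t => prim d (g t) * r1 t) volume a b :=
    ((hprim.mul hc).mono huc.subset).intervalIntegrable
  have hI3 : IntervalIntegrable r1 volume a b := (hc.mono huc.subset).intervalIntegrable
  have hF : ∀ t ∈ Set.uIcc a b, HasDerivAt (fun t => prim d (g t) * r t)
      ((phi d (g t) - mass d ^ 2) + prim d (g t) * r1 t) t := by
    intro t ht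
    rw [huc] at ht
    have h2 : HasDerivAt (fun t => prim d (g t)) ((phi d (g t) - mass d ^ 2) * g1 t) t :=
      (prim_deriv d (g t)).comp t (hg t ht)
    have h3 := h2.mul (hr t ht)
    have e : (phi d (g t) - mass d ^ 2) * g1 t * r t + prim d (g t) * r1 t
        = (phi d (g t) - mass d ^ 2) + prim d (g t) * r1 t := by
      rw [mul_assoc, h1 t ht, mul_one]
    rw [e] at h3
    exact h3
  have h4 := intervalIntegral.integral_eq_sub_of_hasDerivAt hF
    ((hI1.sub intervalIntegrable_const).add hI2)
  rw [intervalIntegral.integral_add (hI1.sub intervalIntegrable_const) hI2,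
    intervalIntegral.integral_sub hI1 intervalIntegrable_const,
    intervalIntegral.integral_const, smul_eq_mul] at h4
  have h5 := intervalIntegral.integral_eq_sub_of_hasDerivAt
    (fun t ht => hr t (by rwa [huc] at ht)) hI3
  have ha : a ∈ Set.Icc a b := ⟨le_rfl, hab⟩
  have hb : b ∈ Set.Icc a b := ⟨hab, le_rfl⟩
  have hm : 0 ≤ mass d ^ 2 := by positivity
  have h6 : -(∫ t in a..b, prim d (g t) * r1 t) ≤ -(mass d ^ 2 * ∫ t in a..b, r1 t) := by
    rw [← intervalIntegral.integral_const_mul, neg_le_neg_iff]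
    apply intervalIntegral.integral_mono_on hab (hI3.const_mul _) hI2
    intro t ht
    have h7 := abs_le.1 (prim_abs d (g t))
    have h8 := hr1 t ht
    nlinarith [h7.1, h7.2]
  have hbd : ∀ t ∈ Set.Icc a b, |prim d (g t) * r t| ≤ mass d ^ 2 * R := by
    intro t ht
    rw [abs_mul]
    exact mul_le_mul (prim_abs d _) (hR t ht) (abs_nonneg _) hm
  have h9 := abs_le.1 (hbd a ha)
  have h10 := abs_le.1 (hbd b hb)
  have h11 := abs_le.1 (hR a ha)
  have h12 := abs_le.1 (hR b hb)
  rw [h5] at h6
  have h13 : -(mass d ^ 2 * (r b - r a)) ≤ mass d ^ 2 * (2 * R) := by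
    have : r a - r b ≤ 2 * R := by linarith [h11.2, h12.1]
    nlinarith
  nlinarith [h9.1, h10.2]

end Pool.Agent.X100.WS
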