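import Pool.Agent.X100.WS.Elem
import Pool.Agent.X100.WS.Tent

/-! Differences of `k`-th roots. -/

namespace Pool.Agent.X100.WS

open Finset MeasureTheory intervalIntegral

/-- The root of order `n + 2`. -/
noncomputable def root (n : ℕ) (s : ℝ) : ℝ := s ^ (1 / ((n : ℝ) + 2))

lemma root_nonneg (n : ℕ) {s : ℝ} (hs : 0 ≤ s) : 0 ≤ root n s := Real.rpow_nonneg hs _

lemma root_pow (n : ℕ) {s : ℝ} (hs : 0 ≤ s) : root n s ^ (n + 2) = s := by
  unfold root
  rw [← Real.rpow_natCast, ← Real.rpow_mul hs]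
  push_cast
  have : (1 / ((n : ℝ) + 2)) * (n + 2) = 1 := by field_simp
  rw [this, Real.rpow_one]

@[fun_prop]
lemma root_continuous (n : ℕ) : Continuous (root n) := by
  unfold root
  exact Real.continuous_rpow_const (by positivity)

lemma root_le (n : ℕ) {s b : ℝ} (hs : 0 ≤ s) (hb : 0 ≤ b) (h : s ≤ b ^ (n + 2)) : root n s ≤ b := by
  have h1 : root n s ^ (n + 2) ≤ b ^ (n + 2) := by rwa [root_pow n hs]
  exact (pow_le_pow_iff_left₀ (root_nonneg n hs) hb (by omega)).1 h1

lemma root_ge (n : ℕ) {s b : ℝ} (hs : 0 ≤ s) (hb : 0 ≤ b) (h : b ^ (n + 2) ≤ s) : b ≤ root n s := by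
  have h1 : b ^ (n + 2) ≤ root n s ^ (n + 2) := by rwa [root_pow n hs]
  exact (pow_le_pow_iff_left₀ hb (root_nonneg n hs) (by omega)).1 h1

lemma root_mono (n : ℕ) {s t : ℝ} (hs : 0 ≤ s) (hst : s ≤ t) : root n s ≤ root n t :=
  Real.rpow_le_rpow hs hst (by positivity)

/-- Two-sided bounds for the difference of two roots. -/
lemma root_diff (n : ℕ) {s s' Q B : ℝ} (hQ : 0 < Q) (h1 : Q ^ (n + 2) ≤ s') (h2 : s' ≤ s)
    (hB : 0 ≤ B) (h3 : s ≤ B ^ (n + 2)) :
    (root n s - root n s') * Q ^ (n + 1) ≤ s - s' ∧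
      s - s' ≤ (n + 2) * (root n s - root n s') * B ^ (n + 1) := by
  have hs' : 0 ≤ s' := (by positivity : (0:ℝ) ≤ Q ^ (n + 2)).trans h1
  have hs : 0 ≤ s := hs'.trans h2
  have e1 := root_pow n hs
  have e2 := root_pow n hs'
  have hm := root_mono n hs' h2
  constructor
  · have := pow_sub_ge (n + 1) hQ.le (root_ge n hs' hQ.le h1) hm
    rwa [show n + 1 + 1 = n + 2 by ring, e1, e2] at this
  · have := pow_sub_le (n + 1) (root_nonneg n hs') hm
    rw [show n + 1 + 1 = n + 2 by ring, e1, e2] at this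
    refine this.trans ?_
    push_cast
    have h4 : root n s ^ (n + 1) ≤ B ^ (n + 1) :=
      pow_le_pow_left₀ (root_nonneg n hs) (root_le n hs hB h3) _
    have h5 : 0 ≤ ((n : ℝ) + 2) * (root n s - root n s') := by
      have : 0 ≤ root n s - root n s' := by linarith
      positivity
    calc ((n : ℝ) + 1 + 1) * (root n s - root n s') * root n s ^ (n + 1)
        = ((n : ℝ) + 2) * (root n s - root n s') * root n s ^ (n + 1) := by ring
      _ ≤ _ := mul_le_mul_of_nonneg_left h4 h5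

lemma phi_symm (d u v : ℝ) : phi d (u - v) = phi d (v - u) := by
  rw [← pair_integral, ← pair_integral]
  congr 1
  ext s
  ring

/-- Middle range: the tents do not meet. -/
lemma pair_mid (n : ℕ) {s s' P B d r : ℝ} (hP : 0 < P) (h1 : (2 * P) ^ (n + 2) ≤ s') (h2 : s' ≤ s)
    (hB : 0 < B) (h3 : s ≤ (B * P) ^ (n + 2)) (hd : 0 < d)
    (hdr : 2 * d * ((n + 2) * B ^ (n + 1) * P ^ (n + 1)) ≤ r)
    (h4 : r ≤ s - s') (h5 : s - s' ≤ P ^ (n + 1)) :
    phi d (root n s - root n s') = 0 := by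
  obtain ⟨ha, hb⟩ := root_diff n (by positivity : (0:ℝ) < 2 * P) h1 h2 (by positivity) h3
  set g := root n s - root n s' with hg
  have hP1 : 0 < P ^ (n + 1) := by positivity
  have hg0 : 0 ≤ g := by
    have hs' : 0 ≤ s' := (by positivity : (0:ℝ) ≤ (2 * P) ^ (n + 2)).trans h1
    have := root_mono n hs' h2
    linarith
  have hg1 : g ≤ 1 / 2 := by
    rw [mul_pow] at ha
    have h6 : g * 2 ^ (n + 1) * P ^ (n + 1) ≤ 1 * P ^ (n + 1) := by linarith
    have h7 : g * 2 ^ (n + 1) ≤ 1 := le_of_mul_le_mul_right h6 hP1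
    have h8 : (2:ℝ) ≤ 2 ^ (n + 1) := by
      calc (2:ℝ) = 2 ^ 1 := (pow_one _).symm
        _ ≤ 2 ^ (n + 1) := pow_le_pow_right₀ (by norm_num) (by omega)
    nlinarith
  have hg2 : 2 * d ≤ g := by
    rw [mul_pow] at hb
    have h6 : 2 * d * ((n + 2) * B ^ (n + 1) * P ^ (n + 1))
        ≤ g * ((n + 2) * B ^ (n + 1) * P ^ (n + 1)) := by
      calc _ ≤ r := hdr
        _ ≤ s - s' := h4
        _ ≤ _ := hb
        _ = _ := by ring
    exact le_of_mul_le_mul_right h6 (by positivity)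
  refine phi_eq_zero hd ?_
  rw [nrm_of_le (by rw [abs_of_nonneg hg0]; exact hg1), abs_of_nonneg hg0]
  exact hg2

lemma rpow_sub_one (n : ℕ) {s : ℝ} (hs : 0 < s) :
    s ^ (1 / ((n : ℝ) + 2) - 1) = 1 / root n s ^ (n + 1) := by
  have hr : 0 < root n s := Real.rpow_pos_of_pos hs _
  rw [Real.rpow_sub hs, Real.rpow_one]
  have e := root_pow n hs.le
  rw [div_eq_div_iff hs.ne' (by positivity)]
  change root n s * root n s ^ (n + 1) = 1 * s
  rw [one_mul, ← pow_succ', e]

/-- Long range: the difference of roots is equidistributed. -/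
lemma pair_long (n : ℕ) {T1 T2 c c' P B d : ℝ} (hT : T1 ≤ T2) (hP : 0 < P) (hB : 0 < B)
    (hcc : c < c') (h1 : (2 * P) ^ (n + 2) ≤ T1 - c') (h3 : T2 - c ≤ (B * P) ^ (n + 2)) :
    ∫ t in T1..T2, phi d (root n (t - c) - root n (t - c'))
      ≤ mass d ^ 2 * (T2 - T1)
        + 4 * mass d ^ 2 * ((n + 2) ^ 2 * (B * P) ^ (2 * n + 3) / (c' - c)) := by
  set a : ℝ := 1 / ((n : ℝ) + 2) with ha
  have ha0 : 0 < a := by positivity
  have ha1 : a < 1 := by
    rw [ha, div_lt_one (by positivity)]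
    have : (0:ℝ) ≤ n := by positivity
    linarith
  set g1 : ℝ → ℝ := fun t => a * (t - c) ^ (a - 1) - a * (t - c') ^ (a - 1) with hg1
  set g2 : ℝ → ℝ := fun t => a * ((a - 1) * (t - c) ^ (a - 1 - 1))
    - a * ((a - 1) * (t - c') ^ (a - 1 - 1)) with hg2
  have hQ0 : (0:ℝ) < (2 * P) ^ (n + 2) := by positivity
  have hpos' : ∀ t ∈ Set.Icc T1 T2, 0 < t - c' := fun t ht => by linarith [ht.1]
  have hpos : ∀ t ∈ Set.Icc T1 T2, 0 < t - c := fun t ht => by linarith [ht.1]
  have hD : ∀ (x : ℝ) (p : ℝ) (t : ℝ), 0 < t - x →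
      HasDerivAt (fun t => (t - x) ^ p) (p * (t - x) ^ (p - 1)) t := by
    intro x p t ht
    have := ((hasDerivAt_id t).sub_const x).rpow_const (p := p) (Or.inl (by simpa using ht.ne'))
    simpa using this
  have hlow : ∀ t ∈ Set.Icc T1 T2, g1 t ≤ -((c' - c) / ((n + 2) ^ 2 * (B * P) ^ (2 * n + 3))) := by
    intro t ht
    have hs' := hpos' t ht
    have hs := hpos t ht
    have hb1 : (2 * P) ^ (n + 2) ≤ t - c' := by linarith [ht.1]
    have hb2 : t - c ≤ (B * P) ^ (n + 2) := by linarith [ht.2]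
    obtain ⟨-, hb⟩ := root_diff n (by positivity : (0:ℝ) < 2 * P) hb1
      (by linarith : t - c' ≤ t - c) (by positivity : (0:ℝ) ≤ B * P) hb2
    set u := root n (t - c) with hu
    set u' := root n (t - c') with hu'
    have hu0 : 0 < u := Real.rpow_pos_of_pos hs _
    have hu0' : 0 < u' := Real.rpow_pos_of_pos hs' _
    have huB : u ≤ B * P := root_le n hs.le (by positivity) hb2
    have huu : u' ≤ u := root_mono n hs'.le (by linarith)
    have e1 : g1 t = a * (1 / u ^ (n + 1) - 1 / u' ^ (n + 1)) := by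
      rw [hg1]
      dsimp only
      rw [ha, rpow_sub_one n hs, rpow_sub_one n hs']
      ring
    have h4 : (u - u') * u' ^ n ≤ u ^ (n + 1) - u' ^ (n + 1) := pow_sub_ge n hu0'.le le_rfl huu
    have h5 : (u - u') / (B * P) ^ (n + 2) ≤ 1 / u' ^ (n + 1) - 1 / u ^ (n + 1) := by
      have e2 : 1 / u' ^ (n + 1) - 1 / u ^ (n + 1)
          = (u ^ (n + 1) - u' ^ (n + 1)) / (u' ^ (n + 1) * u ^ (n + 1)) := by
        rw [div_sub_div _ _ (by positivity) (by positivity)]
        ring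
      rw [e2, div_le_div_iff₀ (by positivity) (by positivity)]
      have h6 : u' * u ^ (n + 1) ≤ (B * P) ^ (n + 2) := by
        calc u' * u ^ (n + 1) ≤ u * u ^ (n + 1) :=
              mul_le_mul_of_nonneg_right huu (by positivity)
          _ = u ^ (n + 2) := by ring
          _ ≤ _ := pow_le_pow_left₀ hu0.le huB _
      have h7 : 0 ≤ (u - u') * u' ^ n := mul_nonneg (by linarith) (by positivity)
      calc (u - u') * (u' ^ (n + 1) * u ^ (n + 1))
          = ((u - u') * u' ^ n) * (u' * u ^ (n + 1)) := by ring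
        _ ≤ (u ^ (n + 1) - u' ^ (n + 1)) * (B * P) ^ (n + 2) :=
            mul_le_mul h4 h6 (by positivity) (h7.trans h4)
    have h8 : (c' - c) / ((n + 2) * (B * P) ^ (n + 1)) ≤ u - u' := by
      rw [div_le_iff₀ (by positivity)]
      calc c' - c = (t - c) - (t - c') := by ring
        _ ≤ _ := hb
        _ = _ := by ring
    have h9 : (c' - c) / ((n + 2) * (B * P) ^ (2 * n + 3)) ≤ 1 / u' ^ (n + 1) - 1 / u ^ (n + 1) := by
      refine le_trans ?_ h5
      rw [le_div_iff₀ (by positivity)]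
      refine le_trans (le_of_eq ?_) h8
      rw [show 2 * n + 3 = (n + 1) + (n + 2) by ring, pow_add]
      field_simp
    rw [e1]
    have e3 : (c' - c) / ((n + 2) ^ 2 * (B * P) ^ (2 * n + 3))
        = a * ((c' - c) / ((n + 2) * (B * P) ^ (2 * n + 3))) := by
      rw [ha]
      field_simp
    rw [e3]
    nlinarith [mul_le_mul_of_nonneg_left h9 ha0.le]
  have hcpos : 0 < (c' - c) / ((n + 2) ^ 2 * (B * P) ^ (2 * n + 3)) := by
    have : 0 < c' - c := by linarith
    positivity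
  have hneg : ∀ t ∈ Set.Icc T1 T2, g1 t < 0 := fun t ht => by linarith [hlow t ht]
  have hg2nn : ∀ t ∈ Set.Icc T1 T2, 0 ≤ g2 t := by
    intro t ht
    have hs' := hpos' t ht
    have h5 : (t - c) ^ (a - 1 - 1) ≤ (t - c') ^ (a - 1 - 1) :=
      Real.rpow_le_rpow_of_nonpos hs' (by linarith) (by linarith)
    have h6 : (a - 1) * (t - c') ^ (a - 1 - 1) ≤ (a - 1) * (t - c) ^ (a - 1 - 1) :=
      mul_le_mul_of_nonpos_left h5 (by linarith)
    have := mul_le_mul_of_nonneg_left h6 ha0.le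
    rw [hg2]
    dsimp only
    linarith
  have hgd : ∀ t ∈ Set.Icc T1 T2,
      HasDerivAt (fun t => root n (t - c) - root n (t - c')) (g1 t) t := by
    intro t ht
    exact (hD c a t (hpos t ht)).sub (hD c' a t (hpos' t ht))
  have hg1d : ∀ t ∈ Set.Icc T1 T2, HasDerivAt g1 (g2 t) t := by
    intro t ht
    exact ((hD c (a - 1) t (hpos t ht)).const_mul a).sub ((hD c' (a - 1) t (hpos' t ht)).const_mul a)
  have hg2c : ContinuousOn g2 (Set.Icc T1 T2) := by
    have hcc' : ∀ (x : ℝ) (p : ℝ), (∀ t ∈ Set.Icc T1 T2, 0 < t - x) →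
        ContinuousOn (fun t => (t - x) ^ p) (Set.Icc T1 T2) := fun x p hx t ht =>
      (hD x p t (hx t ht)).continuousAt.continuousWithinAt
    rw [hg2]
    exact (continuousOn_const.mul (continuousOn_const.mul (hcc' c _ hpos))).sub
      (continuousOn_const.mul (continuousOn_const.mul (hcc' c' _ hpos')))
  have hg1c : ContinuousOn g1 (Set.Icc T1 T2) := fun t ht =>
    (hg1d t ht).continuousAt.continuousWithinAt
  have hmain := ibp (d := d) (R := (n + 2) ^ 2 * (B * P) ^ (2 * n + 3) / (c' - c)) hT hgd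
    (r := fun t => (g1 t)⁻¹) (r1 := fun t => -(g2 t) / (g1 t) ^ 2) ?_ ?_ ?_ ?_ ?_
  · exact hmain
  · intro t ht
    exact (hg1d t ht).inv (hneg t ht).ne
  · intro t ht
    exact mul_inv_cancel₀ (hneg t ht).ne
  · intro t ht
    rw [neg_div]
    have := div_nonneg (hg2nn t ht) (sq_nonneg (g1 t))
    linarith
  · intro t ht
    rw [abs_inv, abs_of_neg (hneg t ht)]
    rw [inv_le_comm₀ (by linarith [hneg t ht]) (by
      have : 0 < c' - c := by linarith
      positivity)]
    rw [inv_div]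
    linarith [hlow t ht]
  · exact hg2c.neg.div (hg1c.pow 2) fun t ht => pow_ne_zero 2 (hneg t ht).ne

end Pool.Agent.X100.WS
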