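import Pool.Agent.X100.WS.Inv

/-! The first stage: `k + 1` variables represent almost everything. -/

namespace Pool.Agent.X100.WS

open Finset MeasureTheory intervalIntegral

lemma pair_bound (n : ℕ) {c c' T1 T2 P B r : ℝ} (hT : T1 ≤ T2) (hP : 1 ≤ P) (hB : 1 ≤ B)
    (hr : 0 < r) (hr1 : r ≤ 1)
    (h1 : (2 * P) ^ (n + 2) ≤ T1 - c) (h1' : (2 * P) ^ (n + 2) ≤ T1 - c')
    (h3 : T2 - c ≤ (B * P) ^ (n + 2)) (h3' : T2 - c' ≤ (B * P) ^ (n + 2)) :
    (∫ t in T1..T2, phi (r / (kap n B * P ^ (n + 1))) (root n (t - c) - root n (t - c')))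
      - mass (r / (kap n B * P ^ (n + 1))) ^ 2 * (T2 - T1)
      ≤ (if |c - c'| ≤ r then mass (r / (kap n B * P ^ (n + 1))) * (T2 - T1) else 0)
        + (if P ^ (n + 1) < |c - c'| then
          4 * mass (r / (kap n B * P ^ (n + 1))) ^ 2 * ((n + 2) ^ 2 * (B * P) ^ (2 * n + 3))
            * (1 / |c - c'|) else 0) := by
  have hP0 : 0 < P := by linarith
  have hB0 : 0 < B := by linarith
  have hkap : 0 < kap n B := by unfold kap; positivity
  set d := r / (kap n B * P ^ (n + 1)) with hd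
  have hd0 : 0 < d := by positivity
  have hdr : 2 * d * ((n + 2) * B ^ (n + 1) * P ^ (n + 1)) ≤ r := by
    have e : 2 * d * ((n + 2) * B ^ (n + 1) * P ^ (n + 1)) = r * (2 / 2 ^ (n + 1)) := by
      rw [hd]
      unfold kap
      rw [mul_pow]
      field_simp
    rw [e]
    have : (2:ℝ) / 2 ^ (n + 1) ≤ 1 := by
      rw [div_le_one (by positivity)]
      calc (2:ℝ) = 2 ^ 1 := (pow_one _).symm
        _ ≤ 2 ^ (n + 1) := pow_le_pow_right₀ (by norm_num) (by omega)
    nlinarith
  have hm : 0 ≤ mass d := mass_nonneg d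
  have hTT : 0 ≤ T2 - T1 := by linarith
  have hsecond : 0 ≤ (if P ^ (n + 1) < |c - c'| then
          4 * mass d ^ 2 * ((n + 2) ^ 2 * (B * P) ^ (2 * n + 3))
            * (1 / |c - c'|) else 0) := by
    split_ifs
    · positivity
    · exact le_rfl
  have hsq : 0 ≤ mass d ^ 2 * (T2 - T1) := by positivity
  by_cases hclose : |c - c'| ≤ r
  · rw [if_pos hclose]
    have h4 : (∫ t in T1..T2, phi d (root n (t - c) - root n (t - c')))
        ≤ ∫ t in T1..T2, mass d := by
      apply intervalIntegral.integral_mono_on hT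
      · exact Continuous.intervalIntegrable (by fun_prop) _ _
      · exact intervalIntegrable_const
      · intro t _
        exact phi_le hd0 _
    rw [intervalIntegral.integral_const, smul_eq_mul] at h4
    linarith
  · rw [if_neg hclose, zero_add]
    push Not at hclose
    by_cases hfar : P ^ (n + 1) < |c - c'|
    · rw [if_pos hfar]
      rcases lt_trichotomy c c' with hlt | heq | hgt
      · have h5 := pair_long n (d := d) hT hP0 hB0 hlt h1' h3
        rw [abs_of_neg (by linarith : c - c' < 0), neg_sub]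
        have e : 4 * mass d ^ 2 * (((n:ℝ) + 2) ^ 2 * (B * P) ^ (2 * n + 3) / (c' - c))
            = 4 * mass d ^ 2 * (((n:ℝ) + 2) ^ 2 * (B * P) ^ (2 * n + 3)) * (1 / (c' - c)) := by
          ring
        linarith
      · rw [heq, sub_self, abs_zero] at hclose
        linarith
      · have h5 := pair_long n (d := d) hT hP0 hB0 hgt h1 h3'
        rw [abs_of_pos (by linarith : 0 < c - c')]
        have e : 4 * mass d ^ 2 * (((n:ℝ) + 2) ^ 2 * (B * P) ^ (2 * n + 3) / (c - c'))
            = 4 * mass d ^ 2 * (((n:ℝ) + 2) ^ 2 * (B * P) ^ (2 * n + 3)) * (1 / (c - c')) := by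
          ring
        have e2 : ∀ t : ℝ, phi d (root n (t - c) - root n (t - c'))
            = phi d (root n (t - c') - root n (t - c)) := fun t => phi_symm d _ _
        simp_rw [e2]
        linarith
    · rw [if_neg hfar]
      push Not at hfar
      have hzero : ∀ t ∈ Set.uIcc T1 T2, phi d (root n (t - c) - root n (t - c')) = 0 := by
        intro t ht
        rw [Set.uIcc_of_le hT] at ht
        rcases le_total c c' with hle | hle
        · rw [abs_of_nonpos (by linarith)] at hclose hfar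
          refine pair_mid n hP0 (by linarith [ht.1]) (by linarith) hB0 (by linarith [ht.2]) hd0 hdr
            ?_ ?_
          · linarith
          · linarith
        · rw [abs_of_nonneg (by linarith)] at hclose hfar
          rw [phi_symm]
          refine pair_mid n hP0 (by linarith [ht.1]) (by linarith) hB0 (by linarith [ht.2]) hd0 hdr
            ?_ ?_
          · linarith
          · linarith
      rw [intervalIntegral.integral_congr hzero]
      simp
      exact hsq

variable {ι : Type*} [Fintype ι] [DecidableEq ι]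

/-- The number of close pairs. -/
noncomputable def CC (K : Finset ι) (n P : ℕ) (r : ℝ) (θ : ι → ℝ) : ℝ :=
  ∑ x ∈ box K P, ∑ y ∈ box K P, if |F K (n + 2) x θ - F K (n + 2) y θ| ≤ r then 1 else 0

/-- The constant of the first stage. -/
noncomputable def C3 (n : ℕ) (B : ℝ) : ℝ :=
  4 * kap n B * B ^ (n + 2) + 16 * ((n + 2) ^ 2 * B ^ (2 * n + 3))

lemma C3_pos (n : ℕ) {B : ℝ} (hB : 1 ≤ B) : 0 < C3 n B := by
  unfold C3 kap
  positivity

lemma var_bound (n : ℕ) {K : Finset ι} (hK : K.card = n + 2) {P : ℕ} (hP : 0 < P)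
    {θ : ι → ℝ} (hθ : ∀ i ∈ K, θ i ∈ Set.Icc (0:ℝ) 1) {T1 T2 B r : ℝ} (hT : T1 ≤ T2) (hB : 1 ≤ B)
    (hr : 0 < r) (hr1 : r ≤ 1)
    (h1 : ∀ x ∈ box K P, (2 * (P:ℝ)) ^ (n + 2) ≤ T1 - F K (n + 2) x θ)
    (h3 : ∀ x ∈ box K P, T2 - F K (n + 2) x θ ≤ (B * P) ^ (n + 2)) :
    ∑ x ∈ box K P, ∑ y ∈ box K P,
      ((∫ t in T1..T2, phi (r / (kap n B * (P:ℝ) ^ (n + 1)))
        (root n (t - F K (n + 2) x θ) - root n (t - F K (n + 2) y θ)))
        - mass (r / (kap n B * (P:ℝ) ^ (n + 1))) ^ 2 * (T2 - T1))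
      ≤ mass (r / (kap n B * (P:ℝ) ^ (n + 1))) * (T2 - T1) * CC K n P r θ
        + 4 * mass (r / (kap n B * (P:ℝ) ^ (n + 1))) ^ 2 * ((n + 2) ^ 2 * (B * P) ^ (2 * n + 3))
          * ((P : ℝ) ^ (n + 2) * (4 * (1 + Real.log (NN n P)))) := by
  classical
  have hP1 : (1:ℝ) ≤ P := by exact_mod_cast hP
  set d := r / (kap n B * (P:ℝ) ^ (n + 1)) with hd
  have h4 : ∀ x ∈ box K P, ∀ y ∈ box K P, ((∫ t in T1..T2, phi d
        (root n (t - F K (n + 2) x θ) - root n (t - F K (n + 2) y θ)))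
        - mass d ^ 2 * (T2 - T1))
      ≤ (mass d * (T2 - T1)) * (if |F K (n + 2) x θ - F K (n + 2) y θ| ≤ r then 1 else 0)
        + (4 * mass d ^ 2 * ((n + 2) ^ 2 * (B * P) ^ (2 * n + 3))) *
          (if (P:ℝ) ^ (n + 1) < |F K (n + 2) x θ - F K (n + 2) y θ| then
            1 / |F K (n + 2) x θ - F K (n + 2) y θ| else 0) := by
    intro x hx y hy
    have := pair_bound n hT hP1 hB hr hr1 (h1 x hx) (h1 y hy) (h3 x hx) (h3 y hy)
    rw [← hd] at this
    refine this.trans (le_of_eq ?_)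
    rw [mul_ite, mul_ite, mul_one, mul_zero, mul_zero]
  refine (Finset.sum_le_sum fun x hx => Finset.sum_le_sum fun y hy => h4 x hx y hy).trans ?_
  simp_rw [Finset.sum_add_distrib, ← Finset.mul_sum]
  apply add_le_add
  · exact le_rfl
  · apply mul_le_mul_of_nonneg_left _ (by positivity)
    have h5 : ∀ x ∈ box K P, (∑ y ∈ box K P,
        if (P:ℝ) ^ (n + 1) < |F K (n + 2) x θ - F K (n + 2) y θ| then
            1 / |F K (n + 2) x θ - F K (n + 2) y θ| else 0) ≤ 4 * (1 + Real.log (NN n P)) := by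
      intro x hx
      rw [← Finset.sum_filter]
      have := sum_inv n hK hP hθ hx
      convert this using 2
    refine (Finset.sum_le_sum h5).trans ?_
    rw [Finset.sum_const, card_box, hK, nsmul_eq_mul]
    push_cast
    exact le_rfl

/-- The set of real numbers in a window that are not represented. -/
def Bad (J : Finset ι) (n P : ℕ) (r T1 T2 : ℝ) (θ : ι → ℝ) : Set ℝ :=
  {t | t ∈ Set.Icc T1 T2 ∧ ∀ x : ι → ℕ, (∀ i ∈ J, P ≤ x i) → r < |F J (n + 2) x θ - t|}

omit [DecidableEq ι] [Fintype ι] in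
lemma Bad_subset (J : Finset ι) (n P : ℕ) (r T1 T2 : ℝ) (θ : ι → ℝ) :
    Bad J n P r T1 T2 θ ⊆ Set.Icc T1 T2 := fun _ ht => ht.1

theorem stage0 (n : ℕ) {K : Finset ι} (hK : K.card = n + 2) {o : ι} (ho : o ∉ K)
    {P : ℕ} (hP : 2 ≤ P)
    {θ : ι → ℝ} (hθ : ∀ i ∈ K, θ i ∈ Set.Icc (0:ℝ) 1) {T1 T2 B r G L : ℝ} (hT : T1 ≤ T2)
    (hB : 1 ≤ B) (hr : 0 < r) (hr1 : r ≤ 1) (hL : 0 < L)
    (h1 : ∀ x ∈ box K P, (2 * (P:ℝ)) ^ (n + 2) ≤ T1 - F K (n + 2) x θ)
    (h3 : ∀ x ∈ box K P, T2 - F K (n + 2) x θ ≤ (B * P) ^ (n + 2))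
    (hG : CC K n P r θ ≤ G * (P : ℝ) ^ (n + 2)) :
    (volume.restrict (Set.Icc (0:ℝ) 1)).real
      {s | s ∈ Set.Icc (0:ℝ) 1 ∧
        L ≤ volume.real (Bad (insert o K) n P r T1 T2 (Function.update θ o s))}
      ≤ C3 n B * (P : ℝ) ^ (n + 1) * (G / r + (1 + Real.log (NN n P))) / L := by
  have hP0 : 0 < P := by omega
  have hP0' : (0:ℝ) < P := by exact_mod_cast hP0
  have hP2 : (2:ℝ) ≤ P := by exact_mod_cast hP
  have hB0 : 0 < B := by linarith
  have hkap : 0 < kap n B := by unfold kap; positivity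
  have hkap1 : 1 ≤ kap n B * (P:ℝ) ^ (n + 1) := by
    have h4 : (1:ℝ) ≤ (2 * B) ^ (n + 1) := one_le_pow₀ (by linarith)
    have h5 : (1:ℝ) ≤ (P:ℝ) ^ (n + 1) := one_le_pow₀ (by linarith)
    have h6 : (1:ℝ) ≤ n + 2 := by
      have : (0:ℝ) ≤ n := by positivity
      linarith
    unfold kap
    have h7 : (1:ℝ) ≤ ((n:ℝ) + 2) * (2 * B) ^ (n + 1) := by nlinarith
    nlinarith
  have hlog : 0 ≤ Real.log (NN n P) := Real.log_natCast_nonneg _
  set d := r / (kap n B * (P:ℝ) ^ (n + 1)) with hd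
  have hd0 : 0 < d := by positivity
  have hd1 : d ≤ 1 := by
    rw [hd, div_le_one (by positivity)]
    linarith
  have hmd := mass_ge hd0 hd1
  have hm0 : 0 < mass d := lt_of_lt_of_le (by positivity) hmd
  have hne : (box K P).Nonempty := by
    rw [← Finset.card_pos, card_box]
    positivity
  set c : (ι → ℕ) → ℝ := fun x => F K (n + 2) x θ with hc
  have hV := var_bound n hK hP0 hθ hT hB hr hr1 h1 h3
  rw [← hd] at hV
  have htot := total_var n d (box K P) c hT
  have hch := cheb n hd0 hd1 hne c hT hL (htot.le.trans hV)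
  have hsub : {s | s ∈ Set.Icc (0:ℝ) 1 ∧
        L ≤ volume.real (Bad (insert o K) n P r T1 T2 (Function.update θ o s))}
      ⊆ {s | L ≤ volume.real {t | t ∈ Set.Icc T1 T2 ∧ cnt n d (box K P) c t s = 0}} := by
    rintro s ⟨hs, hs2⟩
    refine le_trans hs2 ?_
    refine measureReal_mono ?_ (measure_ne_top_of_subset (fun t ht => ht.1)
      (measure_Icc_lt_top (a := T1) (b := T2)).ne)
    intro t ht
    refine ⟨ht.1, ?_⟩
    by_contra hcnt
    obtain ⟨y, hy, m, hm, hclose⟩ := repr_of_cnt n hP2 hB hr hr1 h1 h3 ht.1 hs hcnt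
    have h5 := ht.2 (Function.update y o m) ?_
    · have e : F (insert o K) (n + 2) (Function.update y o m) (Function.update θ o s)
          = c y + ((m : ℝ) + s) ^ (n + 2) := by
        unfold F
        rw [Finset.sum_insert ho, add_comm]
        congr 1
        · rw [hc]
          unfold F
          refine Finset.sum_congr rfl fun j hj => ?_
          have hj' : j ≠ o := fun h => ho (by rw [← h]; exact hj)
          rw [Function.update_of_ne hj', Function.update_of_ne hj']
        · rw [Function.update_self, Function.update_self]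
      rw [e] at h5
      linarith
    · intro i hi
      rcases Finset.mem_insert.1 hi with rfl | hi
      · rw [Function.update_self]
        exact_mod_cast hm
      · have hj' : i ≠ o := fun h => ho (by rw [← h]; exact hi)
        rw [Function.update_of_ne hj']
        exact (mem_box hP0 hy i).1
  have hmono := measureReal_mono (μ := volume.restrict (Set.Icc (0:ℝ) 1)) hsub
  refine hmono.trans (hch.trans ?_)
  rw [card_box, hK]
  push_cast
  have hTT : T2 - T1 ≤ (B * P) ^ (n + 2) := by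
    obtain ⟨x, hx⟩ := hne
    have h5 := h1 x hx
    have h6 := h3 x hx
    have : (0:ℝ) ≤ (2 * (P:ℝ)) ^ (n + 2) := by positivity
    linarith
  have hCC0 : 0 ≤ CC K n P r θ := by
    unfold CC
    refine Finset.sum_nonneg fun x _ => Finset.sum_nonneg fun y _ => ?_
    split_ifs <;> norm_num
  set lg := 1 + Real.log (NN n P) with hlg
  have hlg0 : 0 < lg := by linarith
  have hG0 : 0 ≤ G * (P : ℝ) ^ (n + 2) := hCC0.trans hG
  have e1 : 1 / mass d ≤ 4 * kap n B * (P:ℝ) ^ (n + 1) / r := by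
    rw [div_le_div_iff₀ hm0 hr]
    have : d / 4 * (4 * kap n B * (P:ℝ) ^ (n + 1)) = r := by
      rw [hd]
      field_simp
    nlinarith [mul_le_mul_of_nonneg_right hmd
      (by positivity : 0 ≤ 4 * kap n B * (P:ℝ) ^ (n + 1))]
  have e2 : mass d * (T2 - T1) * CC K n P r θ ≤ mass d * (B * P) ^ (n + 2) * (G * (P : ℝ) ^ (n + 2)) := by
    apply mul_le_mul _ hG hCC0 (by positivity)
    exact mul_le_mul_of_nonneg_left hTT hm0.le
  have e3 : (mass d * (B * P) ^ (n + 2) * (G * (P : ℝ) ^ (n + 2))) / (((P:ℝ) ^ (n + 2) * mass d) ^ 2 * L)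
      = (B ^ (n + 2) * G) * (1 / mass d) / L := by
    rw [mul_pow B]
    field_simp
  have e4 : (4 * mass d ^ 2 * (((n:ℝ) + 2) ^ 2 * (B * P) ^ (2 * n + 3)) * ((P : ℝ) ^ (n + 2) * (4 * lg)))
      / (((P:ℝ) ^ (n + 2) * mass d) ^ 2 * L)
      = 16 * (((n:ℝ) + 2) ^ 2 * B ^ (2 * n + 3)) * (P:ℝ) ^ (n + 1) * lg / L := by
    rw [mul_pow B, show 2 * n + 3 = (n + 2) + (n + 1) by ring, pow_add (P:ℝ)]
    field_simp
    ring
  have hGnn : 0 ≤ G := by
    by_contra hcon
    push Not at hcon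
    have : G * (P : ℝ) ^ (n + 2) < 0 := mul_neg_of_neg_of_pos hcon (by positivity)
    linarith
  calc _ ≤ (mass d * (B * P) ^ (n + 2) * (G * (P : ℝ) ^ (n + 2))
        + 4 * mass d ^ 2 * ((n + 2) ^ 2 * (B * P) ^ (2 * n + 3)) * ((P : ℝ) ^ (n + 2) * (4 * lg)))
        / (((P:ℝ) ^ (n + 2) * mass d) ^ 2 * L) := by
        apply div_le_div_of_nonneg_right _ (by positivity)
        linarith
    _ = (B ^ (n + 2) * G) * (1 / mass d) / L
        + 16 * (((n:ℝ) + 2) ^ 2 * B ^ (2 * n + 3)) * (P:ℝ) ^ (n + 1) * lg / L := by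
        rw [add_div, e3, e4]
    _ ≤ (B ^ (n + 2) * G) * (4 * kap n B * (P:ℝ) ^ (n + 1) / r) / L
        + 16 * (((n:ℝ) + 2) ^ 2 * B ^ (2 * n + 3)) * (P:ℝ) ^ (n + 1) * lg / L := by
        apply add_le_add _ le_rfl
        apply div_le_div_of_nonneg_right _ hL.le
        exact mul_le_mul_of_nonneg_left e1 (by positivity)
    _ = ((4 * kap n B * B ^ (n + 2)) * (G / r) + (16 * ((n + 2) ^ 2 * B ^ (2 * n + 3))) * lg)
        * (P:ℝ) ^ (n + 1) / L := by
        field_simp
    _ ≤ (C3 n B * (G / r) + C3 n B * lg) * (P:ℝ) ^ (n + 1) / L := by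
        apply div_le_div_of_nonneg_right _ hL.le
        apply mul_le_mul_of_nonneg_right _ (by positivity)
        apply add_le_add
        · apply mul_le_mul_of_nonneg_right _ (by positivity)
          unfold C3
          have : 0 ≤ 16 * (((n:ℝ) + 2) ^ 2 * B ^ (2 * n + 3)) := by positivity
          linarith
        · apply mul_le_mul_of_nonneg_right _ hlg0.le
          unfold C3
          have : 0 ≤ 4 * kap n B * B ^ (n + 2) := by positivity
          linarith
    _ = _ := by ring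

end Pool.Agent.X100.WS
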